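import Pool.Agent.N144.DV.Tens

/-!
# Lie algebras which contain a field of prime degree

Let `B` be an algebra over a field `E` of characteristic zero, `x` an element of `B` whose minimal
polynomial is irreducible of prime degree, such that the centralizer of `x` is the field generated by `x`.
An `E`-subspace of `B` which is closed under commutators and contains this field is closed under products.
-/

set_option autoImplicit false
set_option linter.unusedSectionVars false

namespace Pool.Agent.N144.PR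

open Polynomial Module TensorProduct Pool.Agent.N144.DV

noncomputable section

variable {E B : Type*} [Field E] [CharZero E] [Ring B] [Algebra E B]

/-- the homomorphism from the field generated by `x` -/
def phi (x : B) : AdjoinRoot (minpoly E x) →ₐ[E] B :=
  Ideal.Quotient.liftₐ (Ideal.span {minpoly E x}) (aeval x) (by
    intro a ha
    rw [Ideal.mem_span_singleton] at ha
    obtain ⟨q, rfl⟩ := ha
    rw [map_mul, minpoly.aeval, zero_mul])

theorem phi_root (x : B) : phi x (AdjoinRoot.root (minpoly E x)) = x :=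
  aeval_X (R := E) x

theorem phi_comm (x : B) (a b : AdjoinRoot (minpoly E x)) :
    phi x a * phi x b = phi x b * phi x a := by
  rw [← map_mul, ← map_mul, mul_comm]

/-- right multiplication -/
def rmul (x : B) : AdjoinRoot (minpoly E x) →ₐ[E] Module.End E B :=
  AlgHom.ofLinearMap ((LinearMap.mul E B).flip.comp (phi x).toLinearMap)
      (by
        ext y
        change y * phi x 1 = y
        rw [map_one, mul_one])
      (by
        intro a b
        ext y
        change y * phi x (a * b) = y * phi x b * phi x a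
        rw [mul_comm, map_mul, mul_assoc])

theorem rmul_apply (x : B) (a : AdjoinRoot (minpoly E x)) (y : B) : rmul x a y = y * phi x a := rfl

/-- left multiplication -/
def lmul (x : B) : AdjoinRoot (minpoly E x) →ₐ[E] Module.End E B := (Algebra.lmul E B).comp (phi x)

theorem lmul_apply (x : B) (a : AdjoinRoot (minpoly E x)) (y : B) : lmul x a y = phi x a * y := rfl

theorem lr_comm (x : B) (a b : AdjoinRoot (minpoly E x)) : Commute (lmul x a) (rmul x b) := by
  refine LinearMap.ext fun y => ?_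
  change phi x a * (y * phi x b) = phi x a * y * phi x b
  rw [mul_assoc]

/-- the operators `y ↦ a y b` -/
def PH (x : B) : (AdjoinRoot (minpoly E x) ⊗[E] AdjoinRoot (minpoly E x)) →ₐ[E] Module.End E B :=
  Algebra.TensorProduct.lift (lmul x) (rmul x) (lr_comm x)

theorem PH_tmul (x : B) (a b : AdjoinRoot (minpoly E x)) (y : B) :
    PH x (a ⊗ₜ b) y = phi x a * y * phi x b := by
  unfold PH
  rw [Algebra.TensorProduct.lift_tmul, Module.End.mul_apply, rmul_apply, lmul_apply, mul_assoc]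

theorem PH_tt (x y : B) : PH x (tt (minpoly E x)) y = x * y - y * x := by
  unfold tt
  rw [map_sub, LinearMap.sub_apply, PH_tmul, PH_tmul, phi_root, map_one, mul_one, one_mul]

/-- **Theorem.** A Lie algebra which contains the field generated by `x` is an associative algebra. -/
theorem mul_mem {x : B} (hf : Irreducible (minpoly E x)) (hpr : (minpoly E x).natDegree.Prime)
    (hcz : ∀ z : B, x * z = z * x → z ∈ (phi (E := E) x).range) (𝔨 : Submodule E B)
    (hbr : ∀ x ∈ 𝔨, ∀ y ∈ 𝔨, x * y - y * x ∈ 𝔨) (hL : ∀ l ∈ (phi (E := E) x).range, l ∈ 𝔨) :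
    ∀ u ∈ 𝔨, ∀ v ∈ 𝔨, u * v ∈ 𝔨 := by
  have hxL : x ∈ (phi (E := E) x).range := ⟨_, phi_root x⟩
  have hx : x ∈ 𝔨 := hL x hxL
  -- the kernel acts on `𝔨`
  have hJ : ∀ u ∈ JJ (minpoly E x), ∀ k ∈ 𝔨, PH x u k ∈ 𝔨 := by
    intro u hu k hk
    have hpow : ∀ i : ℕ, PH x (tt (minpoly E x) ^ (i + 1)) k ∈ 𝔨 := by
      intro i
      induction i with
      | zero =>
        rw [zero_add, pow_one, PH_tt]
        exact hbr x hx k hk
      | succ i ih =>
        rw [pow_succ', map_mul, Module.End.mul_apply, PH_tt]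
        exact hbr x hx _ ih
    obtain ⟨c, rfl⟩ := J_eq hf hpr hu
    unfold pl
    rw [map_sum, map_sum, LinearMap.sum_apply]
    refine Submodule.sum_mem _ fun i _ => ?_
    rw [map_mul, map_pow, aeval_X, aeval_C, ← Algebra.smul_def, map_smul, LinearMap.smul_apply]
    exact Submodule.smul_mem _ _ (hpow i)
  let 𝔪 : Submodule E B := Submodule.span E {b | ∃ u ∈ JJ (minpoly E x), ∃ k ∈ 𝔨, b = PH x u k}
  have m1 : 𝔪 ≤ 𝔨 := by
    refine Submodule.span_le.2 ?_
    rintro _ ⟨u, hu, k, hk, rfl⟩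
    exact hJ u hu k hk
  have m2 : ∀ v : AdjoinRoot (minpoly E x) ⊗[E] AdjoinRoot (minpoly E x), ∀ m ∈ 𝔪, PH x v m ∈ 𝔪 := by
    intro v m hm
    induction hm using Submodule.span_induction with
    | mem z hz =>
      obtain ⟨u, hu, k, hk, rfl⟩ := hz
      refine Submodule.subset_span ⟨v * u, (JJ _).mul_mem_left _ hu, k, hk, ?_⟩
      rw [map_mul, Module.End.mul_apply]
    | zero => rw [map_zero]; exact 𝔪.zero_mem
    | add a b _ _ ha hb => rw [map_add]; exact 𝔪.add_mem ha hb
    | smul c a _ ha => rw [map_smul]; exact 𝔪.smul_mem c ha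
  have m3 : ∀ m ∈ 𝔪, ∃ m' ∈ 𝔪, m = x * m' - m' * x := by
    intro m hm
    induction hm using Submodule.span_induction with
    | mem z hz =>
      obtain ⟨u, hu, k, hk, rfl⟩ := hz
      obtain ⟨v, hv, rfl⟩ := J_div hf hpr hu
      refine ⟨PH x v k, Submodule.subset_span ⟨v, hv, k, hk, rfl⟩, ?_⟩
      rw [map_mul, Module.End.mul_apply, PH_tt]
    | zero => exact ⟨0, 𝔪.zero_mem, by simp⟩
    | add a b _ _ ha hb =>
      obtain ⟨a', ha', rfl⟩ := ha
      obtain ⟨b', hb', rfl⟩ := hb
      exact ⟨a' + b', 𝔪.add_mem ha' hb', by rw [mul_add, add_mul]; abel⟩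
    | smul c a _ ha =>
      obtain ⟨a', ha', rfl⟩ := ha
      exact ⟨c • a', 𝔪.smul_mem c ha', by rw [smul_sub, mul_smul_comm, smul_mul_assoc]⟩
  have lm : ∀ l ∈ (phi (E := E) x).range, ∀ m ∈ 𝔪, l * m ∈ 𝔪 ∧ m * l ∈ 𝔪 := by
    rintro _ ⟨a, rfl⟩ m hm
    have h1 := m2 (a ⊗ₜ 1) m hm
    have h2 := m2 (1 ⊗ₜ a) m hm
    rw [PH_tmul, map_one, mul_one] at h1
    rw [PH_tmul, map_one, one_mul] at h2
    exact ⟨h1, h2⟩
  -- the decomposition
  have hdec : ∀ k ∈ 𝔨, ∃ l ∈ (phi (E := E) x).range, ∃ m ∈ 𝔪, k = l + m := by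
    intro k hk
    obtain ⟨u, hu, hut⟩ := J_div hf hpr (tt_mem (minpoly E x))
    have h1 : k = PH x (1 - u) k + PH x u k := by
      rw [← LinearMap.add_apply, ← map_add, sub_add_cancel, map_one, Module.End.one_apply]
    refine ⟨_, hcz _ ?_, _, Submodule.subset_span ⟨u, hu, k, hk, rfl⟩, h1⟩
    rw [← sub_eq_zero, ← PH_tt (E := E), ← Module.End.mul_apply, ← map_mul, mul_sub, mul_one, hut,
      sub_self, map_zero, LinearMap.zero_apply]
  have lk : ∀ l ∈ (phi (E := E) x).range, ∀ k ∈ 𝔨, l * k ∈ 𝔨 := by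
    intro l hl k hk
    obtain ⟨l', hl', m, hm, rfl⟩ := hdec k hk
    rw [mul_add]
    exact 𝔨.add_mem (hL _ (Subalgebra.mul_mem _ hl hl')) (m1 (lm l hl m hm).1)
  have mm : ∀ m ∈ 𝔪, ∀ a ∈ 𝔪, m * a ∈ 𝔨 := by
    intro m hm a ha
    obtain ⟨c, hc, rfl⟩ := m3 m hm
    have h1 : (x * a) * c - c * (x * a) ∈ 𝔨 := hbr _ (m1 (lm x hxL a ha).1) _ (m1 hc)
    have h2 : x * (a * c - c * a) ∈ 𝔨 := lk x hxL _ (hbr _ (m1 ha) _ (m1 hc))
    have h3 := 𝔨.sub_mem h1 h2
    have h4 : (x * a) * c - c * (x * a) - x * (a * c - c * a) = (x * c - c * x) * a := by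
      noncomm_ring
    rwa [h4] at h3
  intro u hu v hv
  obtain ⟨l, hl, m, hm, rfl⟩ := hdec u hu
  rw [add_mul]
  refine 𝔨.add_mem (lk l hl v hv) ?_
  obtain ⟨l', hl', m', hm', rfl⟩ := hdec v hv
  rw [mul_add]
  exact 𝔨.add_mem (m1 (lm l' hl' m hm).2) (mm m hm m' hm')

end

end Pool.Agent.N144.PR
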