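import Mathlib

/-!
# Definitions
-/

set_option autoImplicit false

namespace Pool.Agent.N144.PR

open Module

variable {k V : Type} [Field k] [AddCommGroup V] [Module k V]

/-- Let `V` be a vector space of dimension `2 p`, `p` a prime number, with a nondegenerate symmetric or
skew-symmetric form `ψ`, and let `J` be an endomorphism with `J ^ 2 = j ^ 2`, `j ≠ 0`, whose adjoint
for `ψ` is `- J`. -/
structure QuadraticType (p : ℕ) (J : End k V) (j : k) (ψ : V →ₗ[k] V →ₗ[k] k) : Prop where
  prime : p.Prime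
  dim : finrank k V = 2 * p
  ne_zero : j ≠ 0
  square : J * J = j ^ 2 • (1 : End k V)
  nondegenerate : (∀ x, (∀ y, ψ x y = 0) → x = 0) ∧ ∀ y, (∀ x, ψ x y = 0) → y = 0
  symm : (∀ x y, ψ y x = ψ x y) ∨ ∀ x y, ψ y x = -ψ x y
  adjoint : ∀ x y, ψ (J x) y = -ψ x (J y)

/-- The endomorphism `g` preserves the two eigenspaces of `J`, no proper subspace of the first one
is stable under `g`, no power of `g` is a scalar on it, and the determinants on the eigenspaces are
multiplicatively independent. -/
structure Elliptic (J : End k V) (j : k) (g : End k V) : Prop where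
  stable : ∀ x ∈ End.eigenspace J j, g x ∈ End.eigenspace J j
  stable' : ∀ x ∈ End.eigenspace J (-j), g x ∈ End.eigenspace J (-j)
  irreducible : ∀ U ≤ End.eigenspace J j, (∀ x ∈ U, g x ∈ U) → U = ⊥ ∨ U = End.eigenspace J j
  independent : ∀ a b : ℤ, LinearMap.det (g.restrict stable) ^ a *
    LinearMap.det (g.restrict stable') ^ b = 1 → a = 0 ∧ b = 0
  not_scalar : ∀ m : ℕ, 0 < m → ∀ c : k, ∃ x ∈ End.eigenspace J j, (g ^ m) x ≠ c • x

/-- `B` is a linear combination of `ψ (x, y)` and `ψ (J x, y)`. -/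
def Comb (J : End k V) (ψ B : V →ₗ[k] V →ₗ[k] k) : Prop :=
  ∃ a b : k, ∀ x y, B x y = a * ψ x y + b * ψ (J x) y

end Pool.Agent.N144.PR
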