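import Pool.Agent.N144.PR.Bim

/-!
# Endomorphisms with an irreducible minimal polynomial of prime degree
-/

set_option autoImplicit false
set_option linter.unusedSectionVars false

namespace Pool.Agent.N144.PR

open Polynomial Module

noncomputable section

variable {k W : Type*} [Field k] [CharZero k] [AddCommGroup W] [Module k W] [FiniteDimensional k W]

theorem phi_mk (x : End k W) (P : k[X]) :
    phi (E := k) x (AdjoinRoot.mk (minpoly k x) P) = aeval x P := rfl

/-- every nonzero vector is cyclic -/
theorem cyc {x : End k W} (hf : Irreducible (minpoly k x))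
    (hd : (minpoly k x).natDegree = finrank k W) {v : W} (hv : v ≠ 0) (w : W) :
    ∃ P : k[X], w = aeval x P v := by
  have : Fact (Irreducible (minpoly k x)) := ⟨hf⟩
  have : FiniteDimensional k (AdjoinRoot (minpoly k x)) := (AdjoinRoot.powerBasis hf.ne_zero).finite
  let G : AdjoinRoot (minpoly k x) →ₗ[k] W :=
    { toFun := fun a => phi (E := k) x a v
      map_add' := fun a b => by rw [map_add, LinearMap.add_apply]
      map_smul' := fun c a => by rw [map_smul, LinearMap.smul_apply, RingHom.id_apply] }
  have hG : Function.Injective G := by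
    rw [injective_iff_map_eq_zero]
    intro a ha
    by_contra hne
    apply hv
    have h1 : phi (E := k) x (a⁻¹ * a) v = 0 := by
      rw [map_mul, Module.End.mul_apply]
      change phi (E := k) x a⁻¹ (G a) = 0
      rw [ha, map_zero]
    rwa [inv_mul_cancel₀ hne, map_one, Module.End.one_apply] at h1
  have hS : Function.Surjective G := by
    rw [← LinearMap.injective_iff_surjective_of_finrank_eq_finrank]
    · exact hG
    · rw [(AdjoinRoot.powerBasis hf.ne_zero).finrank, AdjoinRoot.powerBasis_dim, hd]
  obtain ⟨a, ha⟩ := hS w
  obtain ⟨P, rfl⟩ := AdjoinRoot.mk_surjective a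
  exact ⟨P, ha.symm⟩

/-- the centralizer is the field generated by `x` -/
theorem comm_range [Nontrivial W] {x : End k W} (hf : Irreducible (minpoly k x))
    (hd : (minpoly k x).natDegree = finrank k W) (z : End k W) (hz : x * z = z * x) :
    z ∈ (phi (E := k) x).range := by
  obtain ⟨v, hv⟩ := exists_ne (0 : W)
  obtain ⟨P, hP⟩ := cyc hf hd hv (z v)
  refine ⟨AdjoinRoot.mk (minpoly k x) P, ?_⟩
  change phi (E := k) x (AdjoinRoot.mk (minpoly k x) P) = z
  rw [phi_mk]
  refine LinearMap.ext fun w => ?_
  obtain ⟨Q, rfl⟩ := cyc hf hd hv w
  have h1 : ∀ Q : k[X], Commute z (aeval x Q) := fun Q =>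
    Polynomial.induction_on' Q (fun P Q hP hQ => by rw [map_add]; exact hP.add_right hQ)
      (fun m c => by
        rw [aeval_monomial]
        exact (show Commute z (algebraMap k _ c) from (Algebra.commutes c z).symm).mul_right
          ((show Commute z x from hz.symm).pow_right m))
  have h2 : (aeval x Q * aeval x P : End k W) = aeval x P * aeval x Q := by
    rw [← map_mul, ← map_mul, mul_comm]
  rw [← Module.End.mul_apply, ← Module.End.mul_apply, ← h2, (h1 Q).eq, Module.End.mul_apply,
    Module.End.mul_apply, hP]

/-- nonzero endomorphisms which commute with `x` are injective -/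
theorem comm_inj {x : End k W} (hf : Irreducible (minpoly k x))
    (hd : (minpoly k x).natDegree = finrank k W) {z : End k W} (hz : x * z = z * x) (hz0 : z ≠ 0) :
    Function.Injective z := by
  rw [injective_iff_map_eq_zero]
  intro v hv
  by_contra hne
  apply hz0
  refine LinearMap.ext fun w => ?_
  obtain ⟨Q, rfl⟩ := cyc hf hd hne w
  have h1 : Commute z (aeval x Q) :=
    Polynomial.induction_on' Q (fun P Q hP hQ => by rw [map_add]; exact hP.add_right hQ)
      (fun m c => by
        rw [aeval_monomial]
        exact (show Commute z (algebraMap k _ c) from (Algebra.commutes c z).symm).mul_right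
          ((show Commute z x from hz.symm).pow_right m))
  rw [← Module.End.mul_apply, h1.eq, Module.End.mul_apply, hv, map_zero, LinearMap.zero_apply]

/-- the dimension of an algebra of injective endomorphisms divides the dimension of the space -/
theorem dvd_of_inj [Nontrivial W] {𝒟 : Subalgebra k (Module.End k W)}
    (hinj : ∀ P ∈ 𝒟, P ≠ 0 → Function.Injective P) : finrank k 𝒟 ∣ finrank k W := by
  have hdom : IsDomain 𝒟 := by
    have h1 : Nontrivial 𝒟 := inferInstance
    have h2 : NoZeroDivisors 𝒟 := by
      refine ⟨fun {a b} hab => ?_⟩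
      by_contra hcon
      push Not at hcon
      have ha : Function.Injective (a : Module.End k W) := hinj a a.2
        (fun h => hcon.1 (Subtype.ext h))
      have hb : Function.Injective (b : Module.End k W) := hinj b b.2
        (fun h => hcon.2 (Subtype.ext h))
      obtain ⟨v, hv⟩ := exists_ne (0 : W)
      have h3 : (a : Module.End k W) ((b : Module.End k W) v) = 0 :=
        congrArg (fun T : 𝒟 => (T : Module.End k W) v) hab
      apply hv
      apply hb
      apply ha
      rw [h3, map_zero, map_zero]
    exact NoZeroDivisors.to_isDomain _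
  let _ : DivisionRing 𝒟 := divisionRingOfFiniteDimensional k 𝒟
  have htow : IsScalarTower k 𝒟 W := ⟨fun a b c => rfl⟩
  exact ⟨_, (finrank_mul_finrank k 𝒟 W).symm⟩

/-- **Density.** An algebra which contains `x` and is not commutative contains all endomorphisms, if
the dimension is a prime number. -/
theorem all_mem {x y : End k W} (hf : Irreducible (minpoly k x))
    (hd : (minpoly k x).natDegree = finrank k W) (hp : (finrank k W).Prime)
    (S : Subalgebra k (End k W)) (hx : x ∈ S) (hy : y ∈ S) (hxy : x * y ≠ y * x) (T : End k W) :
    T ∈ S := by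
  have hnt : Nontrivial W := by
    by_contra hcon
    rw [not_nontrivial_iff_subsingleton] at hcon
    exact hxy (Subsingleton.elim _ _)
  have htow : IsScalarTower k S W := ⟨fun a b c => rfl⟩
  -- the module is simple
  have hsimple : IsSimpleModule S W := by
    rw [isSimpleModule_iff]
    refine { toNontrivial := ?_, eq_bot_or_eq_top := fun U => ?_ }
    · exact (Submodule.nontrivial_iff S).2 hnt
    · by_cases h0 : U = ⊥
      · exact Or.inl h0
      · right
        obtain ⟨v, hvU, hv⟩ := (Submodule.ne_bot_iff _).1 h0
        rw [eq_top_iff]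
        intro w _
        obtain ⟨P, rfl⟩ := cyc hf hd hv w
        have h1 : aeval x P ∈ S := by
          have h2 : aeval x P = (aeval (⟨x, hx⟩ : S) P : S).1 := by
            change aeval (S.val ⟨x, hx⟩) P = S.val (aeval (⟨x, hx⟩ : S) P)
            rw [aeval_algHom_apply]
          rw [h2]
          exact (aeval (⟨x, hx⟩ : S) P).2
        exact U.smul_mem (⟨aeval x P, h1⟩ : S) hvU
  -- the endomorphisms are scalars
  have hscalar : ∀ a : End S W, ∃ c : k, ∀ w, a w = c • w := by
    intro a
    let a' : End k W := a.restrictScalars k
    have hC : ∀ s ∈ S, s * a' = a' * s := by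
      intro s hs
      refine LinearMap.ext fun w => ?_
      exact (a.map_smul (⟨s, hs⟩ : S) w).symm
    let C : Subalgebra k (End k W) := Subalgebra.centralizer k ({x, y} : Set (End k W))
    have hCx : ∀ z ∈ C, x * z = z * x := fun z hz =>
      (Subalgebra.mem_centralizer_iff k).1 hz x (by simp)
    have hCy : ∀ z ∈ C, y * z = z * y := fun z hz =>
      (Subalgebra.mem_centralizer_iff k).1 hz y (by simp)
    have h1 : finrank k C ∣ finrank k W := dvd_of_inj fun z hz hz0 => comm_inj hf hd (hCx z hz) hz0
    have haC : a' ∈ C := by
      rw [Subalgebra.mem_centralizer_iff]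
      rintro s (rfl | rfl)
      · exact hC _ hx
      · exact hC _ hy
    rcases (Nat.dvd_prime hp).1 h1 with h2 | h2
    · rw [Subalgebra.finrank_eq_one_iff] at h2
      rw [h2, Algebra.mem_bot] at haC
      obtain ⟨c, hc⟩ := haC
      refine ⟨c, fun w => ?_⟩
      change a' w = c • w
      rw [← hc]
      rfl
    · exfalso
      -- `C` is the field generated by `x`
      have : Fact (Irreducible (minpoly k x)) := ⟨hf⟩
      have h3 : C ≤ (phi (E := k) x).range := fun z hz => comm_range hf hd z (hCx z hz)
      have h4 : finrank k (phi (E := k) x).range = finrank k W := by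
        have h2 := (AlgEquiv.ofInjective (phi (E := k) x)
          (phi (E := k) x).toRingHom.injective).toLinearEquiv.finrank_eq
        rw [← h2, (AdjoinRoot.powerBasis hf.ne_zero).finrank, AdjoinRoot.powerBasis_dim, hd]
      have h5 : C = (phi (E := k) x).range := Subalgebra.eq_of_le_of_finrank_le h3 (by rw [h4, h2])
      have h6 : x ∈ C := by
        rw [h5]
        exact ⟨_, phi_root x⟩
      exact hxy (hCy x h6).symm
  -- density
  let f : End (End S W) W :=
    { toFun := T
      map_add' := fun u v => map_add T u v
      map_smul' := fun a w => by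
        obtain ⟨c, hc⟩ := hscalar a
        rw [RingHom.id_apply, Module.End.smul_def, Module.End.smul_def, hc, hc, map_smul] }
  classical
  obtain ⟨r, hr⟩ := jacobson_density f (Finset.univ.image (Module.finBasis k W))
  have h1 : T = (r : End k W) := by
    refine (Module.finBasis k W).ext fun i => ?_
    exact hr _ (Finset.mem_image_of_mem _ (Finset.mem_univ i))
  rw [h1]
  exact r.2

/-- **Theorem.** A Lie algebra of endomorphisms of a space of prime dimension which contains the field
generated by `x`, and is not commutative, contains all endomorphisms. -/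
theorem lie_all {x y : End k W} (hf : Irreducible (minpoly k x))
    (hd : (minpoly k x).natDegree = finrank k W) (hp : (finrank k W).Prime)
    (𝔨 : Submodule k (End k W)) (hbr : ∀ x ∈ 𝔨, ∀ y ∈ 𝔨, x * y - y * x ∈ 𝔨)
    (hL : ∀ z, x * z = z * x → z ∈ 𝔨) (hy : y ∈ 𝔨) (hxy : x * y ≠ y * x) (T : End k W) : T ∈ 𝔨 := by
  have hnt : Nontrivial W := by
    by_contra hcon
    rw [not_nontrivial_iff_subsingleton] at hcon
    exact hxy (Subsingleton.elim _ _)
  have h1 := mul_mem hf (by rw [hd]; exact hp) (comm_range hf hd) 𝔨 hbr (by
    rintro _ ⟨a, rfl⟩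
    apply hL
    have h2 := phi_comm (E := k) x (AdjoinRoot.root _) a
    rw [phi_root] at h2
    exact h2)
  let S : Subalgebra k (End k W) := 𝔨.toSubalgebra (hL 1 (by rw [mul_one, one_mul]))
    (fun u v hu hv => h1 u hu v hv)
  exact all_mem hf hd hp S (hL x rfl) hy hxy T

end

end Pool.Agent.N144.PR
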