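import Pool.Agent.N144.PR.Two

/-!
# Rational points are dense
-/

set_option autoImplicit false
set_option linter.unusedSectionVars false

namespace Pool.Agent.N144.PR

open Module Polynomial

noncomputable section

variable {K : Type*} [Field K] {p d : ℕ}

/-- the matrix with the columns `v, A v, A ^ 2 v, ...` -/
def krylov {R : Type*} [CommRing R] (A : Matrix (Fin p) (Fin p) R) (v : Fin p → R) :
    Matrix (Fin p) (Fin p) R := Matrix.of fun i m => ((A ^ (m : ℕ)).mulVec v) i

theorem krylov_map {R S : Type*} [CommRing R] [CommRing S] (f : R →+* S)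
    (A : Matrix (Fin p) (Fin p) R) (v : Fin p → R) :
    f (krylov A v).det = (krylov (A.map f) (f ∘ v)).det := by
  rw [RingHom.map_det]
  congr 1
  ext i m
  change f (((A ^ (m : ℕ)).mulVec v) i) = (((A.map f) ^ (m : ℕ)).mulVec (f ∘ v)) i
  rw [RingHom.map_mulVec, ← Matrix.map_pow]

theorem exists_rational (s : Set K) (hs : s.Infinite) (A : Fin d → Matrix (Fin p) (Fin p) K)
    (v : Fin p → K) {c : Fin d → K} (hc : (krylov (∑ i, c i • A i) v).det ≠ 0) :
    ∃ q : Fin d → K, (∀ i, q i ∈ s) ∧ (krylov (∑ i, q i • A i) v).det ≠ 0 := by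
  let G : Matrix (Fin p) (Fin p) (MvPolynomial (Fin d) K) :=
    ∑ i, (MvPolynomial.X i : MvPolynomial (Fin d) K) • (A i).map (MvPolynomial.C (σ := Fin d))
  let D : MvPolynomial (Fin d) K := (krylov G (MvPolynomial.C ∘ v)).det
  have hD : ∀ c : Fin d → K, MvPolynomial.eval c D = (krylov (∑ i, c i • A i) v).det := by
    intro c
    rw [krylov_map]
    congr 2
    · ext a b
      simp only [G, Matrix.map_apply, Matrix.sum_apply, Matrix.smul_apply, smul_eq_mul, map_sum,
        map_mul, MvPolynomial.eval_X, MvPolynomial.eval_C]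
    · funext a
      simp only [Function.comp_apply, MvPolynomial.eval_C]
  by_contra hcon
  push Not at hcon
  apply hc
  have h1 : D = 0 := by
    refine MvPolynomial.funext_set (fun _ => s) (fun _ => hs) fun q hq => ?_
    rw [hD, map_zero]
    exact hcon q fun i => hq i (Set.mem_univ i)
  rw [← hD, h1, map_zero]

variable {W : Type*} [AddCommGroup W] [Module K W]

/-- a vector is cyclic if and only if the Krylov matrix is invertible -/
theorem cyclic_iff [FiniteDimensional K W] (b : Basis (Fin p) K W) (A : End K W) (v : W) :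
    (∀ w, ∃ P : K[X], w = aeval A P v) ↔
      (krylov (LinearMap.toMatrix b b A) (b.repr v)).det ≠ 0 := by
  have h0 : ∀ m : ℕ, ((LinearMap.toMatrix b b A) ^ m).mulVec (b.repr v) = b.repr ((A ^ m) v) := by
    intro m
    have h2 : (LinearMap.toMatrix b b A) ^ m = LinearMap.toMatrix b b (A ^ m) :=
      (map_pow (LinearMap.toMatrixAlgEquiv b) A m).symm
    rw [h2, LinearMap.toMatrix_mulVec_repr]
  have h1 : krylov (LinearMap.toMatrix b b A) (b.repr v) =
      b.toMatrix (fun m : Fin p => (A ^ (m : ℕ)) v) := by
    ext i m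
    change (((LinearMap.toMatrix b b A) ^ (m : ℕ)).mulVec (b.repr v)) i = _
    rw [h0]
    rfl
  have h2 : (krylov (LinearMap.toMatrix b b A) (b.repr v)).det =
      b.det (fun m : Fin p => (A ^ (m : ℕ)) v) := by
    rw [h1, Basis.det_apply]
  have h3 := Module.Basis.is_basis_iff_det b (v := fun m : Fin p => (A ^ (m : ℕ)) v)
  rw [isUnit_iff_ne_zero, ← h2] at h3
  rw [← h3]
  have hfr : finrank K W = p := by rw [finrank_eq_card_basis b, Fintype.card_fin]
  constructor
  · intro h
    have h4 : (⊤ : Submodule K W) ≤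
        Submodule.span K (Set.range fun m : Fin p => (A ^ (m : ℕ)) v) := by
      intro w _
      obtain ⟨P, rfl⟩ := h w
      have h5 : aeval A P = aeval A (P %ₘ A.charpoly) := by
        conv_lhs => rw [← Polynomial.modByMonic_add_div P A.charpoly]
        rw [map_add, map_mul, LinearMap.aeval_self_charpoly, zero_mul, add_zero]
      rw [h5, aeval_eq_sum_range, LinearMap.sum_apply]
      refine Submodule.sum_mem _ fun m hm => ?_
      by_cases h6 : m < p
      · rw [LinearMap.smul_apply]
        exact Submodule.smul_mem _ _ (Submodule.subset_span ⟨⟨m, h6⟩, rfl⟩)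
      · have h7 : (P %ₘ A.charpoly).coeff m = 0 := by
          apply coeff_eq_zero_of_degree_lt
          refine (degree_modByMonic_lt P A.charpoly_monic).trans_le ?_
          rw [degree_eq_natDegree A.charpoly_monic.ne_zero, LinearMap.charpoly_natDegree, hfr]
          exact_mod_cast not_lt.1 h6
        rw [h7, zero_smul, LinearMap.zero_apply]
        exact Submodule.zero_mem _
    exact ⟨linearIndependent_of_top_le_span_of_card_eq_finrank h4
      (by rw [Fintype.card_fin, hfr]), top_le_iff.1 h4⟩
  · rintro ⟨-, h4⟩ w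
    have h5 : w ∈ Submodule.span K (Set.range fun m : Fin p => (A ^ (m : ℕ)) v) := by
      rw [h4]
      trivial
    rw [Submodule.mem_span_range_iff_exists_fun] at h5
    obtain ⟨c, rfl⟩ := h5
    refine ⟨∑ m : Fin p, C (c m) * X ^ (m : ℕ), ?_⟩
    rw [map_sum, LinearMap.sum_apply]
    refine Finset.sum_congr rfl fun m _ => ?_
    rw [map_mul, aeval_C, map_pow, aeval_X, Module.End.mul_apply, Module.algebraMap_end_apply]

/-- **Density.** If some linear combination of the endomorphisms has the cyclic vector `v`, then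
there is one with coefficients in the infinite set `s`. -/
theorem exists_cyclic [FiniteDimensional K W] (s : Set K) (hs : s.Infinite) (A : Fin d → End K W)
    (v : W) {c : Fin d → K} (hc : ∀ w, ∃ P : K[X], w = aeval (∑ i, c i • A i) P v) :
    ∃ q : Fin d → K, (∀ i, q i ∈ s) ∧ ∀ w, ∃ P : K[X], w = aeval (∑ i, q i • A i) P v := by
  let b := finBasis K W
  have h1 : ∀ q : Fin d → K, LinearMap.toMatrix b b (∑ i, q i • A i) =
      ∑ i, q i • LinearMap.toMatrix b b (A i) := by
    intro q
    rw [map_sum]
    exact Finset.sum_congr rfl fun i _ => by rw [map_smul]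
  rw [cyclic_iff b, h1] at hc
  obtain ⟨q, hq, h2⟩ := exists_rational s hs _ _ hc
  refine ⟨q, hq, ?_⟩
  rw [cyclic_iff b, h1]
  exact h2

end

end Pool.Agent.N144.PR
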