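import Pool.Agent.N144.PR.Two
import Pool.Agent.N144.TD.Eig

/-!
# Eigenvalues in an algebraically closed field
-/

set_option autoImplicit false
set_option linter.unusedSectionVars false

namespace Pool.Agent.N144.PR

open Module Polynomial TensorProduct Pool.Agent.N144.TD

noncomputable section

variable {k V : Type} [Field k] [CharZero k] [AddCommGroup V] [Module k V]
  [FiniteDimensional k V] {p : ℕ} {J : End k V} {j : k} {ψ : V →ₗ[k] V →ₗ[k] k}

omit [CharZero k] [FiniteDimensional k V] in
theorem Elliptic.generic {g : End k V} (hg : Elliptic J j g) : Generic J j g :=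
  ⟨hg.stable, hg.stable', hg.independent, hg.not_scalar⟩

/-- The block of an elliptic element. -/
theorem Elliptic.block (h : QuadraticType p J j ψ) {g : End k V} (hg : Elliptic J j g) :
    Irreducible (minpoly k (g.restrict hg.stable)) ∧
      (minpoly k (g.restrict hg.stable)).natDegree = finrank k (WW J j) := by
  have := h.nontrivial_W
  refine irr_of_simple fun U hU => ?_
  have h1 : ∀ x ∈ U.map (WW J j).subtype, g x ∈ U.map (WW J j).subtype := by
    rintro _ ⟨x, hx, rfl⟩
    exact ⟨g.restrict hg.stable x, hU x hx, rfl⟩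
  rcases hg.irreducible (U.map (WW J j).subtype) (Submodule.map_subtype_le _ _) h1 with h2 | h2
  · left
    rw [eq_bot_iff]
    intro x hx
    have h3 : (x : V) ∈ U.map (WW J j).subtype := ⟨x, hx, rfl⟩
    rw [h2, Submodule.mem_bot] at h3
    exact (Submodule.mem_bot k).2 (Subtype.ext h3)
  · right
    rw [eq_top_iff]
    intro x _
    have h3 : (x : V) ∈ U.map (WW J j).subtype := by
      rw [h2]
      exact x.2
    obtain ⟨y, hy, hyx⟩ := h3
    have h4 : y = x := Subtype.ext hyx
    rwa [h4] at hy

/-- The block of a power which commutes with `J`. -/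
theorem Elliptic.block_pow (h : QuadraticType p J j ψ) {g : End k V} (hg : Elliptic J j g) {M : ℕ}
    (hM : 0 < M) (hgJ : J * g ^ M = g ^ M * J) :
    Irreducible (minpoly k (ph h.square (g ^ M))) ∧
      (minpoly k (ph h.square (g ^ M))).natDegree = finrank k (WW J j) := by
  have := h.nontrivial_W
  obtain ⟨h1, h2⟩ := hg.block h
  have hst : ∀ x ∈ WW J j, (g ^ M) x ∈ WW J j := (hg.generic.pow hM).stable
  have h3 : ph h.square (g ^ M) = (g.restrict hg.stable) ^ M := by
    rw [← pow_restrict' hg.stable M hst]
    refine LinearMap.ext fun w => Subtype.ext ?_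
    rw [ph_apply h.ne_zero h.square hgJ]
    rfl
  rw [h3]
  refine irr_comm h1 h2 h.prime_W (by rw [← pow_succ', ← pow_succ]) fun c hc => ?_
  obtain ⟨x, hx, hne⟩ := hg.not_scalar M hM c
  apply hne
  rw [← h3] at hc
  have h4 := congrArg (fun T : End k (WW J j) => ((T ⟨x, hx⟩ : WW J j) : V)) hc
  change ((ph h.square (g ^ M) ⟨x, hx⟩ : WW J j) : V) = _ at h4
  rw [ph_apply h.ne_zero h.square hgJ] at h4
  exact h4

variable {Ω : Type} [Field Ω] [IsAlgClosed Ω] [Algebra k Ω]

/-- **Independent eigenvalues.** -/
theorem Elliptic.indep (h : QuadraticType p J j ψ) {g : End k V} (hg : Elliptic J j g) :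
    ∃ w : Fin (p + 1) → Ω, (∀ i, aeval (w i) g.charpoly = 0) ∧
      ∀ e : Fin (p + 1) → ℤ, ∏ i, w i ^ e i = 1 → e = 0 := by
  obtain ⟨hirr, hd⟩ := hg.block h
  have hdeg : (minpoly k (g.restrict hg.stable)).natDegree = p := by rw [hd, h.finrank_W]
  have hcp : aeval g g.charpoly = 0 := LinearMap.aeval_self_charpoly g
  have hns : ∀ M : ℕ, 0 < M → ∀ c : k, ∃ a : Ω, aeval a (minpoly k (g.restrict hg.stable)) = 0 ∧
      a ^ M ≠ algebraMap k Ω c := by
    intro M hM c
    by_contra hcon
    push Not at hcon
    obtain ⟨a, ha⟩ := IsAlgClosed.exists_aeval_eq_zero Ω (minpoly k (g.restrict hg.stable))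
      (fun h0 => by
        have h1 := natDegree_eq_of_degree_eq_some h0
        rw [hdeg] at h1
        exact h.prime.ne_zero h1)
    have h1 := hcon a ha
    have hmon : (minpoly k (g.restrict hg.stable)).Monic :=
      minpoly.monic (Algebra.IsIntegral.isIntegral _)
    have h2 : minpoly k (g.restrict hg.stable) = minpoly k a :=
      minpoly.eq_of_irreducible_of_monic hirr ha hmon
    have h3 : minpoly k (g.restrict hg.stable) ∣ X ^ M - C c := by
      rw [h2]
      apply minpoly.dvd
      rw [map_sub, map_pow, aeval_X, aeval_C, h1, sub_self]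
    obtain ⟨R, hR⟩ := h3
    have h4 : (g.restrict hg.stable) ^ M = c • 1 := by
      have h5 := congrArg (aeval (g.restrict hg.stable)) hR
      rw [map_mul, minpoly.aeval, zero_mul, map_sub, map_pow, aeval_X, aeval_C, sub_eq_zero,
        Algebra.algebraMap_eq_smul_one] at h5
      exact h5
    obtain ⟨x, hx, hne⟩ := hg.not_scalar M hM c
    apply hne
    have hst : ∀ m : ℕ, ∀ x ∈ End.eigenspace J j, (g ^ m) x ∈ End.eigenspace J j := by
      intro m
      induction m with
      | zero => intro x hx; exact hx
      | succ m ih =>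
        intro x hx
        rw [pow_succ', End.mul_apply]
        exact hg.stable _ (ih x hx)
    rw [← pow_restrict' hg.stable M (hst M)] at h4
    have h5 := congrArg (fun T : End k (WW J j) => ((T ⟨x, hx⟩ : WW J j) : V)) h4
    exact h5
  obtain ⟨w, hw1, hw2⟩ := exists_indep' (Ω := Ω) (f := minpoly k (g.restrict hg.stable))
    (Q := (g.restrict hg.stable).charpoly) (Q' := (g.restrict hg.stable').charpoly) hirr
    h.prime hdeg
    (fun a ha => root_of_charpoly _ ha _ (minpoly.aeval k _))
    (det_roots _) (det_roots _) hg.independent hns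
  · refine ⟨w, fun i => ?_, hw2⟩
    rcases hw1 i with h1 | h1
    · have h2 : minpoly k (g.restrict hg.stable) ∣ g.charpoly :=
        minpoly.dvd _ _ (aeval_restrict hg.stable hcp)
      obtain ⟨R, hR⟩ := h2
      rw [hR, map_mul, h1, zero_mul]
    · exact root_of_charpoly _ h1 _ (aeval_restrict hg.stable' hcp)

end

end Pool.Agent.N144.PR
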