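import Pool.Agent.N144.PR.Eig
import Pool.Agent.N144.PR.Dense
import Pool.Agent.N144.TD.Gal

/-!
# The Galois representation
-/

set_option autoImplicit false
set_option linter.unusedSectionVars false
set_option linter.unusedVariables false

namespace Pool.Agent.N144.PR

open Module Polynomial TensorProduct Pool.Agent.Y114.RM
  Pool.Agent.Y114.MU Pool.Agent.Y114.TF Pool.Agent.Y114.GF Pool.Agent.H204R3.GP Pool.Agent.R931.IR
  Pool.Agent.N203.RE Pool.Agent.TH118.SG Pool.Agent.Y115.R Pool.Agent.N144.TD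

noncomputable section

theorem tor_commutes {W : Type} [AddCommGroup W] [Module ℂ W] [FiniteDimensional ℂ W]
    {g Y : End ℂ W} (hY : Y ∈ tor g) : g * Y = Y * g := by
  obtain ⟨θ, hθ⟩ := hY
  refine op_ext g fun β x hx => ?_
  have h1 : g x ∈ g.maxGenEigenspace β :=
    Module.End.mapsTo_maxGenEigenspace_of_comm (Commute.refl g) β hx
  rw [Module.End.mul_apply, Module.End.mul_apply, hθ β x hx, hθ β (g x) h1, map_smul]

section main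

variable {Γ : Type} [Group Γ] [TopologicalSpace Γ] [IsTopologicalGroup Γ] [CompactSpace Γ]
  {ι : Type} [Fintype ι] [DecidableEq ι] {n : ι → ℕ} {ℓ : ℕ} [Fact ℓ.Prime] (ρ : Reps Γ n ℓ)

/-- eigenvalues of the sum are eigenvalues of the components -/
theorem component_of {Ω : Type} [Field Ω] [Algebra ℚ_[ℓ] Ω] {σ : Γ} {a : Ω}
    (ha : aeval a (sumRep ρ σ).charpoly = 0) : ∃ i, aeval a (ρ i σ).charpoly = 0 := by
  classical
  by_contra hcon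
  push Not at hcon
  have h1 : aeval a (∏ i, (ρ i σ).charpoly) ≠ 0 := by
    rw [map_prod]
    exact Finset.prod_ne_zero_iff.2 fun i _ => hcon i
  apply h1
  refine root_of_charpoly _ ha _ ?_
  refine LinearMap.ext fun x => funext fun i => ?_
  have h2 : ∀ (Q : ℚ_[ℓ][X]) (x : ∀ i, Fin (n i) → ℚ_[ℓ]) (i : ι),
      (aeval (sumRep ρ σ) Q) x i = (aeval (ρ i σ) Q) (x i) := by
    intro Q x i
    induction Q using Polynomial.induction_on' with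
    | add P Q h1 h2 => simp only [map_add, LinearMap.add_apply, Pi.add_apply, h1, h2]
    | monomial m c =>
      rw [aeval_monomial, aeval_monomial, Module.End.mul_apply, Module.End.mul_apply,
        Module.algebraMap_end_apply, Module.algebraMap_end_apply, Pi.smul_apply]
      congr 1
      induction m generalizing x with
      | zero => rfl
      | succ m ih =>
        rw [pow_succ, pow_succ, Module.End.mul_apply, Module.End.mul_apply, ih]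
        rfl
  rw [h2]
  have h3 : aeval (ρ i σ) (∏ i, (ρ i σ).charpoly) = 0 := by
    obtain ⟨R, hR⟩ := Finset.dvd_prod_of_mem (fun i => (ρ i σ).charpoly) (Finset.mem_univ i)
    rw [hR, map_mul, LinearMap.aeval_self_charpoly, zero_mul]
  rw [h3]
  rfl

/-- independent eigenvalues -/
theorem independent_of {p : ℕ} {J : End ℚ_[ℓ] (∀ i, Fin (n i) → ℚ_[ℓ])} {j : ℚ_[ℓ]}
    {ψ : (∀ i, Fin (n i) → ℚ_[ℓ]) →ₗ[ℚ_[ℓ]] (∀ i, Fin (n i) → ℚ_[ℓ]) →ₗ[ℚ_[ℓ]] ℚ_[ℓ]}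
    (h : QuadraticType p J j ψ) {σ : Γ} (hσ : Elliptic J j (sumRep ρ σ)) :
    IndependentEigenvalues ρ σ (p + 1) := by
  obtain ⟨w, hw, hwi⟩ := hσ.indep (Ω := PadicAlgCl ℓ) h
  have hcomp : ∀ a : Fin (p + 1), ∃ i, EigenvalueOf ρ i σ (w a) := fun a => component_of ρ (hw a)
  choose κ hκ using hcomp
  exact ⟨κ, w, hκ, hwi⟩

/-- independent roots of the polynomials with rational coefficients -/
theorem independent_roots {p : ℕ} {J : End ℚ_[ℓ] (∀ i, Fin (n i) → ℚ_[ℓ])} {j : ℚ_[ℓ]}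
    {ψ : (∀ i, Fin (n i) → ℚ_[ℓ]) →ₗ[ℚ_[ℓ]] (∀ i, Fin (n i) → ℚ_[ℓ]) →ₗ[ℚ_[ℓ]] ℚ_[ℓ]}
    (h : QuadraticType p J j ψ) {σ : Γ} (hσ : Elliptic J j (sumRep ρ σ)) {P : ι → ℚ[X]}
    (hP : ∀ i, (ρ i σ).charpoly = (P i).map (algebraMap ℚ ℚ_[ℓ])) :
    IndepRoots (p + 1) (Set.range P) := by
  obtain ⟨j₁, hj₁⟩ := exists_j ℓ ℚ_[ℓ] ℚ (algebraMap ℚ ℚ_[ℓ]) (algebraMap ℚ ℂ)
  let _ : Algebra ℚ_[ℓ] ℂ := j₁.toAlgebra
  obtain ⟨w, hw, hwi⟩ := hσ.indep (Ω := ℂ) h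
  refine ⟨w, fun a => ?_, hwi⟩
  obtain ⟨i, hi⟩ := component_of ρ (hw a)
  refine ⟨P i, ⟨i, rfl⟩, ?_⟩
  rw [hP i, aeval_def, eval₂_map] at hi
  have h3 : algebraMap ℚ ℂ = (algebraMap ℚ_[ℓ] ℂ).comp (algebraMap ℚ ℚ_[ℓ]) :=
    RingHom.ext_rat _ _
  rw [aeval_def, h3]
  exact hi

theorem main_aux (hρ : Conts ρ) (𝔤 : Submodule ℚ_[ℓ] (End ℚ_[ℓ] (∀ i, Fin (n i) → ℚ_[ℓ])))
    (h𝔤 : IsMotivic ρ 𝔤) {p : ℕ}
    {J : End ℚ_[ℓ] (∀ i, Fin (n i) → ℚ_[ℓ])} {j : ℚ_[ℓ]}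
    {ψ : (∀ i, Fin (n i) → ℚ_[ℓ]) →ₗ[ℚ_[ℓ]] (∀ i, Fin (n i) → ℚ_[ℓ]) →ₗ[ℚ_[ℓ]] ℚ_[ℓ]}
    (h : QuadraticType p J j ψ) (hD : 𝔤 ≤ sims J ψ)
    (hab : NotPotentiallyAbelian ρ) (σ : Γ) (hσ : Elliptic J j (sumRep ρ σ)) :
    (∃ Z ∈ 𝔤, ∃ v : WW J j, ∀ w, ∃ P : ℚ_[ℓ][X], w = aeval (ph h.square Z) P v) ∧
      𝔤 = sims J ψ ∧ Semisimple ρ ∧
      (∀ (m : ℕ) (φ : Tensor ℚ_[ℓ] (∀ i, Fin (n i) → ℚ_[ℓ]) m), TateTensor (sumRep ρ) φ ↔
        ∀ X ∈ 𝔤, KillsTensor X φ) := by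
  classical
  have hin := inputs
  have hin2 := inputs2
  obtain ⟨j₁, hj₁⟩ := exists_j ℓ ℚ_[ℓ] ℚ (algebraMap ℚ ℚ_[ℓ]) (algebraMap ℚ ℂ)
  let _ : Algebra ℚ_[ℓ] ℂ := j₁.toAlgebra
  obtain ⟨L, hL, hLie, hAd, -⟩ := hin.lie ℚ_[ℓ] (∀ i, Fin (n i) → ℚ_[ℓ]) _ (sumRep ρ)
  have hLG : L ≤ 𝔤 := fun X hX => h𝔤.algebraic X fun m φ hφ => ((hL X).1 hX).2 m φ (h𝔤.tate m φ hφ)
  have hLs : L ≤ sims J ψ := hLG.trans hD
  -- the blocks do not commute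
  have hnc : ∃ X₀ ∈ L, ∃ Y₀ ∈ L,
      ph h.square X₀ * ph h.square Y₀ ≠ ph h.square Y₀ * ph h.square X₀ := by
    by_contra hcon
    push Not at hcon
    have h1 := h.commutative hLie hLs hcon
    obtain ⟨Δ', hΔ', hcomm⟩ := hin2.tfr ℓ ι n _ ρ hρ (comm L) (comm_conj (sumRep ρ) hAd)
      (comm_order (sumRep ρ) hin hin2 hL)
    have h2 : ∀ s ∈ Δ', sumRep ρ s ∈ comm L := fun s hs X hX =>
      (hcomm s hs X fun Y hY => h1 Y hY X hX).symm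
    obtain ⟨a, ha, b, hb, hne⟩ := hab Δ' hΔ'
    exact hne (hcomm a ha _ (h2 b hb))
  obtain ⟨X₀, hX₀, Y₀, hY₀, hXY⟩ := hnc
  -- a power of `σ` commutes with `J`
  obtain ⟨Δ, hΔ, hΔD⟩ := comm_of_tate (sumRep ρ) h𝔤.tate (P := J) fun X hX => (hD hX).1
  obtain ⟨M, hM, -, hMΔ⟩ := Subgroup.exists_pow_mem_of_index_ne_zero hΔ.index_ne_zero σ
  have hgJ : J * sumRep ρ (σ ^ M) = sumRep ρ (σ ^ M) * J := (hΔD _ hMΔ).symm
  obtain ⟨hf, hd⟩ : Irreducible (minpoly ℚ_[ℓ] (ph h.square (sumRep ρ (σ ^ M)))) ∧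
      (minpoly ℚ_[ℓ] (ph h.square (sumRep ρ (σ ^ M)))).natDegree = finrank ℚ_[ℓ] (WW J j) := by
    rw [map_pow] at hgJ ⊢
    exact hσ.block_pow h hM hgJ
  -- the eigenvalues
  obtain ⟨z, hz, hind⟩ := hσ.indep (Ω := ℂ) h
  have hz' : ∀ i, End.HasEigenvalue ((sumRep ρ σ).baseChange ℂ) (z i) := fun i =>
    hasEigenvalue_of _ (hz i)
  -- the rank
  have hrk : p + 1 ≤ finrank ℚ_[ℓ] (cn L (sumRep ρ (σ ^ M))) := by
    have h1 : p + 1 ≤ finrank ℂ (cen (bcS ℂ L) ((sumRep ρ (σ ^ M)).baseChange ℂ)) := by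
      refine (tor_rank hin.rd _ (injective_of_mul (g' := (sumRep ρ σ⁻¹).baseChange ℂ)
        (by rw [← bc_mul, Pool.Agent.Y114.RM.rho_inv_mul, bc_one])) z hz' hind).trans
        (Submodule.finrank_mono fun Y hY => ?_)
      refine ⟨tor_le (sumRep ρ) hin hL _ hY, ?_⟩
      have h2 : Commute ((sumRep ρ σ).baseChange ℂ) Y := tor_commutes hY
      rw [map_pow, LinearMap.baseChange_pow]
      exact (h2.pow_left M).eq
    rwa [(hin.bc ℚ_[ℓ] ℂ _ L).2.2.2.1 _] at h1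
  obtain ⟨hb1, hb2⟩ := h.blocks hLs hgJ hf hd hrk
  have hfull : sims J ψ ≤ L := h.full hLie hLs hgJ hf hd hX₀ hY₀ hXY hrk
  have heq : 𝔤 = sims J ψ := le_antisymm hD (hfull.trans hLG)
  have hGL : 𝔤 ≤ L := hD.trans hfull
  refine ⟨?_, heq, ?_, fun m φ => ⟨fun hφ X hX => ((hL X).1 (hGL hX)).2 m φ hφ, h𝔤.tate m φ⟩⟩
  · obtain ⟨Z, hZ, hZg⟩ := hb1 _ rfl
    have := h.nontrivial_W
    obtain ⟨v, hv⟩ := exists_ne (0 : WW J j)
    refine ⟨Z, hLG hZ, v, ?_⟩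
    rw [hZg]
    exact cyc hf hd hv
  · exact hin.concl ℚ_[ℓ] ι _ Γ ρ 𝔤 h𝔤 fun X hX => (hL X).1 (hGL hX)

theorem bc_sum {H : Type} [AddCommGroup H] [Module ℚ H] {d : ℕ} (a : Fin d → ℚ)
    (B : Fin d → End ℚ H) : (∑ i, a i • B i).baseChange ℚ_[ℓ] =
      ∑ i, ((a i : ℚ) : ℚ_[ℓ]) • (B i).baseChange ℚ_[ℓ] := by
  have h1 : ∀ s : Finset (Fin d), (∑ i ∈ s, a i • B i).baseChange ℚ_[ℓ] =
      ∑ i ∈ s, ((a i : ℚ) : ℚ_[ℓ]) • (B i).baseChange ℚ_[ℓ] := by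
    intro s
    induction s using Finset.induction_on with
    | empty => rw [Finset.sum_empty, Finset.sum_empty, LinearMap.baseChange_zero]
    | insert i s hi ih =>
      rw [Finset.sum_insert hi, Finset.sum_insert hi, LinearMap.baseChange_add, ih,
        LinearMap.baseChange_smul]
      congr 1
  exact h1 _

/-- elements of the extension of scalars are linear combinations of a rational basis -/
theorem scal_basis {𝔤 : Submodule ℚ (End ℚ (Betti n))} {d : ℕ} (b : Basis (Fin d) ℚ 𝔤)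
    {Z : End ℚ_[ℓ] (∀ i, Fin (n i) → ℚ_[ℓ])} (hZ : Z ∈ scal ℓ 𝔤) :
    ∃ c : Fin d → ℚ_[ℓ], Z = ∑ i, c i • (ee (n := n) ℓ).conj ((b i : End ℚ (Betti n)).baseChange
      ℚ_[ℓ]) := by
  have h1 : Z ∈ Submodule.span ℚ_[ℓ] {Y : LadicEnd n ℓ | ∃ X ∈ 𝔤, Extends X Y} := hZ
  have h2 : Z ∈ Submodule.span ℚ_[ℓ] (Set.range fun i => (ee (n := n) ℓ).conj
      ((b i : End ℚ (Betti n)).baseChange ℚ_[ℓ])) := by
    refine (Submodule.span_le.2 ?_) h1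
    rintro Y ⟨X, hX, h3⟩
    rw [(extends_iff ℓ X Y).1 h3]
    have h4 : X = ∑ i, b.repr ⟨X, hX⟩ i • (b i : End ℚ (Betti n)) := by
      have h5 := congrArg (Submodule.subtype 𝔤) (b.sum_repr ⟨X, hX⟩)
      rw [map_sum] at h5
      exact h5.symm.trans (Finset.sum_congr rfl fun i _ => rfl)
    rw [h4]
    have h5 : (∑ i, b.repr ⟨X, hX⟩ i • (b i : End ℚ (Betti n))).baseChange ℚ_[ℓ] =
        ∑ i, ((b.repr ⟨X, hX⟩ i : ℚ) : ℚ_[ℓ]) • (b i : End ℚ (Betti n)).baseChange ℚ_[ℓ] :=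
      bc_sum _ _
    rw [h5, map_sum]
    refine Submodule.sum_mem _ fun i _ => ?_
    rw [map_smul]
    exact Submodule.smul_mem _ _ (Submodule.subset_span ⟨i, rfl⟩)
  rw [Submodule.mem_span_range_iff_exists_fun] at h2
  obtain ⟨c, hc⟩ := h2
  exact ⟨c, hc.symm⟩

/-- The rank of a rational Lie algebra whose extension of scalars is contained in the Lie algebra of the
similitudes, and has an element with a cyclic vector. -/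
theorem ratRank {𝔤 : Submodule ℚ (End ℚ (Betti n))} {p : ℕ}
    {J : End ℚ_[ℓ] (∀ i, Fin (n i) → ℚ_[ℓ])} {j : ℚ_[ℓ]}
    {ψ : (∀ i, Fin (n i) → ℚ_[ℓ]) →ₗ[ℚ_[ℓ]] (∀ i, Fin (n i) → ℚ_[ℓ]) →ₗ[ℚ_[ℓ]] ℚ_[ℓ]}
    (h : QuadraticType p J j ψ) (hD : scal ℓ 𝔤 ≤ sims J ψ)
    (hZ : ∃ Z ∈ scal ℓ 𝔤, ∃ v : WW J j, ∀ w, ∃ P : ℚ_[ℓ][X], w = aeval (ph h.square Z) P v) :
    RatRankLE 𝔤 (p + 1) := by
  have : FiniteDimensional ℚ (Betti n) := inferInstanceAs (FiniteDimensional ℚ (∀ i, Fin (n i) → ℚ))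
  obtain ⟨Z, hZ, v, hv⟩ := hZ
  let b := finBasis ℚ 𝔤
  obtain ⟨c, hc⟩ := scal_basis b hZ
  have h1 : ∀ c : Fin (finrank ℚ 𝔤) → ℚ_[ℓ], ph h.square (∑ i, c i • (ee (n := n) ℓ).conj
      ((b i : End ℚ (Betti n)).baseChange ℚ_[ℓ])) = ∑ i, c i • ph h.square ((ee (n := n) ℓ).conj
      ((b i : End ℚ (Betti n)).baseChange ℚ_[ℓ])) := by
    intro c
    rw [map_sum]
    exact Finset.sum_congr rfl fun i _ => by rw [map_smul]
  rw [hc, h1] at hv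
  obtain ⟨q, hq, hcyc⟩ := exists_cyclic (Set.range (algebraMap ℚ ℚ_[ℓ]))
    (Set.infinite_range_of_injective (algebraMap ℚ ℚ_[ℓ]).injective) _ v hv
  choose a ha using hq
  let X : End ℚ (Betti n) := ∑ i, a i • (b i : End ℚ (Betti n))
  have hX : X ∈ 𝔤 := Submodule.sum_mem _ fun i _ => 𝔤.smul_mem _ (b i).2
  have h2 : ph h.square ((ee (n := n) ℓ).conj (X.baseChange ℚ_[ℓ])) =
      ∑ i, q i • ph h.square ((ee (n := n) ℓ).conj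
      ((b i : End ℚ (Betti n)).baseChange ℚ_[ℓ])) := by
    rw [← h1]
    congr 1
    rw [bc_sum, map_sum]
    refine Finset.sum_congr rfl fun i _ => ?_
    rw [map_smul, ← ha i]
    rfl
  rw [← h2] at hcyc
  refine ⟨X, hX, ?_⟩
  have hX' : (ee (n := n) ℓ).conj (X.baseChange ℚ_[ℓ]) ∈ scal ℓ 𝔤 :=
    (mem_scalars ℓ).2 (mem_bcS hX)
  have h1 := h.finrank_cn_le hD (QuadraticType.J_comm (hD hX')) hcyc
  refine le_trans (le_of_eq ?_) h1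
  rw [← (inputs.bc ℚ ℚ_[ℓ] (Betti n) 𝔤).2.2.2.1 X]
  have h2 : cn (scal ℓ 𝔤) ((ee ℓ).conj (X.baseChange ℚ_[ℓ])) =
      (cen (bcS ℚ_[ℓ] 𝔤) (X.baseChange ℚ_[ℓ])).map (ee (n := n) ℓ).conj.toLinearMap := by
    ext Z
    obtain ⟨Y, rfl⟩ := exists_conj ℓ Z
    change ((ee ℓ).conj Y ∈ scal ℓ 𝔤 ∧ _) ↔ _
    rw [mem_scalars, ← Pool.Agent.N203.RE.conj_mul, ← Pool.Agent.N203.RE.conj_mul,
      Submodule.mem_map]
    constructor
    · rintro ⟨h3, h4⟩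
      exact ⟨Y, ⟨h3, (ee ℓ).conj.injective h4⟩, rfl⟩
    · rintro ⟨Y', ⟨h3, h4⟩, h5⟩
      have h6 : Y' = Y := (ee ℓ).conj.injective h5
      subst h6
      exact ⟨h3, congrArg _ h4⟩
  rw [h2]
  exact (LinearEquiv.finrank_map_eq (ee ℓ).conj _).symm

end main

end

end Pool.Agent.N144.PR
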