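import Pool.Agent.N144.PR.Irr
import Pool.Agent.N144.PR.Defs
import Pool.Agent.N144.TD.Two

/-!
# Spaces with a form and with multiplication by a quadratic algebra
-/

set_option autoImplicit false
set_option linter.unusedSectionVars false

namespace Pool.Agent.N144.PR

open Module Pool.Agent.N144.TD Polynomial

noncomputable section

variable {k V : Type} [Field k] [AddCommGroup V] [Module k V]

/-- The Lie algebra of the endomorphisms which commute with `J` and are similitudes of `ψ`. -/
def sims (J : End k V) (ψ : V →ₗ[k] V →ₗ[k] k) : Submodule k (End k V) where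
  carrier := {X | X * J = J * X ∧ ∃ c, ∀ x y, ψ (X x) y + ψ x (X y) = c * ψ x y}
  zero_mem' := ⟨by rw [zero_mul, mul_zero], 0, fun x y => by simp⟩
  add_mem' := by
    rintro A B ⟨hA, c, hc⟩ ⟨hB, d, hd⟩
    refine ⟨by rw [add_mul, mul_add, hA, hB], c + d, fun x y => ?_⟩
    rw [LinearMap.add_apply, LinearMap.add_apply, map_add, map_add, LinearMap.add_apply, add_mul,
      ← hc, ← hd]
    ring
  smul_mem' := by
    rintro a A ⟨hA, c, hc⟩
    refine ⟨by rw [smul_mul_assoc, mul_smul_comm, hA], a * c, fun x y => ?_⟩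
    rw [LinearMap.smul_apply, LinearMap.smul_apply, map_smul, map_smul, LinearMap.smul_apply,
      smul_eq_mul, smul_eq_mul, mul_assoc, ← hc]
    ring

variable {p : ℕ} {J : End k V} {j : k} {ψ : V →ₗ[k] V →ₗ[k] k}

namespace QuadraticType

variable [CharZero k] [FiniteDimensional k V] (h : QuadraticType p J j ψ)

include h

theorem isotropic {c : k} (hc : c ≠ 0) {x y : V} (hx : x ∈ WW J c) (hy : y ∈ WW J c) :
    ψ x y = 0 := by
  rw [End.mem_eigenspace_iff] at hx hy
  have h1 := h.adjoint x y
  rw [hx, hy, map_smul, LinearMap.smul_apply, map_smul, smul_eq_mul] at h1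
  have h2 : (2 * c) * ψ x y = 0 := by linear_combination h1
  exact (mul_eq_zero.1 h2).resolve_left (mul_ne_zero two_ne_zero hc)

theorem split (x : V) : ∃ a ∈ WW J j, ∃ b ∈ WW J (-j), x = a + b :=
  ⟨pr J j x, pr_mem h.square x, x - pr J j x, sub_pr_mem h.ne_zero h.square x, by abel⟩

theorem left_zero {c : k} (hc : c = j ∨ c = -j) {x : V} (hx : x ∈ WW J c)
    (h0 : ∀ y ∈ WW J (-c), ψ x y = 0) : x = 0 := by
  apply h.nondegenerate.1 x
  intro y
  obtain ⟨a, ha, b, hb, rfl⟩ := h.split y
  have hj := h.ne_zero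
  rcases hc with rfl | rfl
  · rw [map_add, h.isotropic hj hx ha, h0 b hb, add_zero]
  · rw [neg_neg] at h0
    rw [map_add, h0 a ha, h.isotropic (neg_ne_zero.2 hj) hx hb, add_zero]

theorem finrank_le {c : k} (hc : c = j ∨ c = -j) :
    finrank k (WW J c) ≤ finrank k (WW J (-c)) := by
  let F : WW J c →ₗ[k] Dual k (WW J (-c)) :=
    { toFun := fun x => (ψ x) ∘ₗ (WW J (-c)).subtype
      map_add' := fun x y => by
        refine LinearMap.ext fun z => ?_
        simp only [Submodule.coe_add, map_add, LinearMap.comp_apply, LinearMap.add_apply]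
      map_smul' := fun a x => by
        refine LinearMap.ext fun z => ?_
        simp only [Submodule.coe_smul, map_smul, LinearMap.comp_apply, LinearMap.smul_apply,
          RingHom.id_apply] }
  have hF : Function.Injective F := by
    rw [injective_iff_map_eq_zero]
    rintro ⟨x, hx⟩ h0
    apply Subtype.ext
    exact h.left_zero hc hx fun y hy => LinearMap.congr_fun h0 ⟨y, hy⟩
  have h1 := LinearMap.finrank_le_finrank_of_injective hF
  rwa [Subspace.dual_finrank_eq] at h1

theorem finrank_W : finrank k (WW J j) = p := by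
  have h1 := h.finrank_le (c := j) (Or.inl rfl)
  have h2 := h.finrank_le (c := -j) (Or.inr rfl)
  rw [neg_neg] at h2
  have h3 := Submodule.finrank_sup_add_finrank_inf_eq (WW J j) (WW J (-j))
  have h4 : WW J j ⊔ WW J (-j) = ⊤ := by
    rw [eq_top_iff]
    intro x _
    obtain ⟨a, ha, b, hb, rfl⟩ := h.split x
    exact Submodule.add_mem_sup ha hb
  have h5 : WW J j ⊓ WW J (-j) = ⊥ := by
    rw [eq_bot_iff]
    rintro x ⟨hx, hy⟩
    rw [SetLike.mem_coe, End.mem_eigenspace_iff] at hx hy
    rw [Submodule.mem_bot]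
    have h6 : (2 * j) • x = 0 := by
      rw [two_mul, add_smul]
      nth_rewrite 1 [← hx]
      rw [hy, neg_smul, neg_add_cancel]
    exact (smul_eq_zero.1 h6).resolve_left (mul_ne_zero two_ne_zero h.ne_zero)
  rw [h4, h5, finrank_top, finrank_bot, h.dim] at h3
  omega

theorem nontrivial_W : Nontrivial (WW J j) :=
  Module.nontrivial_of_finrank_pos (R := k) (by rw [h.finrank_W]; exact h.prime.pos)

theorem prime_W : (finrank k (WW J j)).Prime := by rw [h.finrank_W]; exact h.prime

omit [CharZero k] [FiniteDimensional k V] h in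
theorem J_comm {X : End k V} (hX : X ∈ sims J ψ) : J * X = X * J := hX.1.symm

/-- a similitude which kills the eigenspace is a multiple of the other projector -/
theorem ker_ph {X : End k V} (hX : X ∈ sims J ψ) (h0 : ph h.square X = 0) :
    ∃ c : k, X = c • (1 - pr J j) := by
  have hJX := J_comm hX
  obtain ⟨-, c, hc⟩ := hX
  refine ⟨c, LinearMap.ext fun x => ?_⟩
  obtain ⟨a, ha, b, hb, rfl⟩ := h.split x
  have h1 : ∀ a ∈ WW J j, X a = 0 := by
    intro a ha
    rw [← ph_apply h.ne_zero h.square hJX ⟨a, ha⟩, h0]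
    rfl
  have h2 : X b = c • b := by
    rw [← sub_eq_zero]
    apply h.nondegenerate.2
    intro y
    obtain ⟨a', ha', b', hb', rfl⟩ := h.split y
    have h3 := hc a' b
    rw [h1 a' ha', map_zero, LinearMap.zero_apply, zero_add] at h3
    have hXb : X b ∈ WW J (-j) := by
      rw [End.mem_eigenspace_iff] at hb ⊢
      have h4 := LinearMap.congr_fun hJX b
      rwa [End.mul_apply, End.mul_apply, hb, map_smul] at h4
    have h5 : ψ b' (X b) = 0 := h.isotropic (neg_ne_zero.2 h.ne_zero) hb' hXb
    have h6 : ψ b' b = 0 := h.isotropic (neg_ne_zero.2 h.ne_zero) hb' hb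
    rw [map_add, LinearMap.add_apply, map_sub, map_sub, map_smul, map_smul, h3, h5, h6, smul_eq_mul,
      smul_eq_mul, sub_self, mul_zero, sub_self, add_zero]
  rw [map_add, h1 a ha, h2, zero_add, LinearMap.smul_apply, LinearMap.sub_apply, End.one_apply,
    map_add, pr_self h.ne_zero ha, pr_zero h.ne_zero hb]
  congr 1
  abel

/-- The trace of the projector. -/
theorem trace_pr : LinearMap.trace k V (1 - pr J j) = (p : k) := by
  have h1 : LinearMap.IsProj (WW J j) (pr J j) :=
    ⟨pr_mem h.square, fun x hx => pr_self h.ne_zero hx⟩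
  have h2 := h1.trace
  rw [map_sub, h2, LinearMap.trace_one, h.dim, h.finrank_W]
  push_cast
  ring

/-- If the blocks of the elements of a Lie algebra of similitudes commute, then it is commutative. -/
theorem commutative {L : Submodule k (End k V)}
    (hLie : ∀ X ∈ L, ∀ Y ∈ L, X * Y - Y * X ∈ L) (hL : L ≤ sims J ψ)
    (hc : ∀ X ∈ L, ∀ Y ∈ L, ph h.square X * ph h.square Y = ph h.square Y * ph h.square X) :
    ∀ X ∈ L, ∀ Y ∈ L, X * Y = Y * X := by
  intro X hX Y hY
  obtain ⟨c, hc'⟩ := h.ker_ph (hL (hLie X hX Y hY)) (by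
    rw [map_sub, ph_mul h.ne_zero h.square (J_comm (hL hX)) (J_comm (hL hY)),
      ph_mul h.ne_zero h.square (J_comm (hL hY)) (J_comm (hL hX)), hc X hX Y hY, sub_self])
  have h1 := congrArg (LinearMap.trace k V) hc'
  rw [map_sub, LinearMap.trace_mul_comm, sub_self, map_smul, h.trace_pr, smul_eq_mul] at h1
  have h2 : (p : k) ≠ 0 := by exact_mod_cast h.prime.ne_zero
  have h3 : c = 0 := (mul_eq_zero.1 h1.symm).resolve_right h2
  rw [h3, zero_smul, sub_eq_zero] at hc'
  exact hc'

end QuadraticType

/-- the blocks of the elements of `L` which commute with `X` -/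
def tt [CharZero k] (hJ : J * J = j ^ 2 • (1 : End k V)) (L : Submodule k (End k V)) (X : End k V) :
    cn L X →ₗ[k] End k (WW J j) := ph hJ ∘ₗ (cn L X).subtype

namespace QuadraticType

variable [CharZero k] [FiniteDimensional k V] (h : QuadraticType p J j ψ)

include h

theorem finrank_ker_tt {L : Submodule k (End k V)} (hL : L ≤ sims J ψ) (X : End k V) :
    finrank k (LinearMap.ker (tt h.square L X)) ≤ 1 := by
  have h1 : (LinearMap.ker (tt h.square L X)).map (cn L X).subtype ≤
      Submodule.span k {(1 - pr J j : End k V)} := by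
    rintro _ ⟨⟨Y, hY, hXY⟩, hY0, rfl⟩
    have h2 : ph h.square Y = 0 := hY0
    obtain ⟨c, hc⟩ := h.ker_ph (hL hY) h2
    exact Submodule.mem_span_singleton.2 ⟨c, hc.symm⟩
  have h2 := (Submodule.equivMapOfInjective (cn L X).subtype Subtype.val_injective
    (LinearMap.ker (tt h.square L X))).finrank_eq
  rw [h2]
  refine (Submodule.finrank_mono h1).trans ?_
  exact (finrank_span_le_card _).trans (by simp)

end QuadraticType

/-- the endomorphisms which commute with `x` -/
def cz {W : Type} [AddCommGroup W] [Module k W] (x : End k W) : Submodule k (End k W) where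
  carrier := {z | x * z = z * x}
  add_mem' := by
    intro a b ha hb
    change x * (a + b) = (a + b) * x
    rw [mul_add, add_mul, ha, hb]
  zero_mem' := by
    change x * 0 = 0 * x
    rw [mul_zero, zero_mul]
  smul_mem' := by
    intro c a ha
    change x * (c • a) = (c • a) * x
    rw [mul_smul_comm, smul_mul_assoc, ha]

/-- The centralizer of an endomorphism with a cyclic vector. -/
theorem finrank_cz_le {W : Type} [AddCommGroup W] [Module k W] [FiniteDimensional k W]
    {x : End k W} {v : W} (hv : ∀ w, ∃ P : k[X], w = aeval x P v) :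
    finrank k (cz x) ≤ finrank k W := by
  let F : cz x →ₗ[k] W :=
    { toFun := fun z => (z : End k W) v
      map_add' := fun a b => rfl
      map_smul' := fun c a => rfl }
  refine LinearMap.finrank_le_finrank_of_injective (f := F) ?_
  rw [injective_iff_map_eq_zero]
  rintro ⟨z, hz⟩ h0
  apply Subtype.ext
  change z = 0
  have h1 : z v = 0 := h0
  refine LinearMap.ext fun w => ?_
  obtain ⟨P, rfl⟩ := hv w
  have h2 : Commute z (aeval x P) :=
    Polynomial.induction_on' P (fun P Q hP hQ => by rw [map_add]; exact hP.add_right hQ)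
      (fun m c => by
        rw [aeval_monomial]
        exact (show Commute z (algebraMap k _ c) from (Algebra.commutes c z).symm).mul_right
          ((show Commute z x from hz.symm).pow_right m))
  rw [← Module.End.mul_apply, h2.eq, Module.End.mul_apply, h1, map_zero, LinearMap.zero_apply]

namespace QuadraticType

variable [CharZero k] [FiniteDimensional k V] (h : QuadraticType p J j ψ)

include h

theorem range_tt {L : Submodule k (End k V)} (hL : L ≤ sims J ψ) {X : End k V}
    (hX : J * X = X * J) : LinearMap.range (tt h.square L X) ≤ cz (ph h.square X) := by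
  rintro _ ⟨⟨Y, hY, hXY⟩, rfl⟩
  change ph h.square X * ph h.square Y = ph h.square Y * ph h.square X
  rw [← ph_mul h.ne_zero h.square hX (J_comm (hL hY)),
    ← ph_mul h.ne_zero h.square (J_comm (hL hY)) hX, hXY]

/-- The centralizers have at most the dimension `p + 1`. -/
theorem finrank_cn_le {L : Submodule k (End k V)} (hL : L ≤ sims J ψ) {X : End k V}
    (hX : J * X = X * J) {v : WW J j} (hv : ∀ w, ∃ P : k[X], w = aeval (ph h.square X) P v) :
    finrank k (cn L X) ≤ p + 1 := by
  have h2 := LinearMap.finrank_range_add_finrank_ker (tt h.square L X)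
  have h3 := Submodule.finrank_mono (h.range_tt hL hX)
  have h1 := finrank_cz_le hv
  rw [h.finrank_W] at h1
  have h4 := h.finrank_ker_tt hL X
  omega

/-- If `L` has a subspace of dimension `p + 1` which commutes with an endomorphism `g` without proper
stable subspaces, then all endomorphisms which commute with the block of `g` are blocks of elements of
`L`, and `L` contains the second projector. -/
theorem blocks {L : Submodule k (End k V)} (hL : L ≤ sims J ψ) {g : End k V} (hg : J * g = g * J)
    (hf : Irreducible (minpoly k (ph h.square g)))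
    (hd : (minpoly k (ph h.square g)).natDegree = finrank k (WW J j))
    (hrk : p + 1 ≤ finrank k (cn L g)) :
    (∀ z, ph h.square g * z = z * ph h.square g → ∃ Y ∈ L, ph h.square Y = z) ∧
      (1 - pr J j : End k V) ∈ L := by
  have := h.nontrivial_W
  obtain ⟨v, hv⟩ := exists_ne (0 : WW J j)
  have e0 := finrank_cz_le (cyc hf hd hv)
  rw [h.finrank_W] at e0
  have e1 := LinearMap.finrank_range_add_finrank_ker (tt h.square L g)
  have e2 := Submodule.finrank_mono (h.range_tt hL hg)
  have e3 := h.finrank_ker_tt hL g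
  have e4 : LinearMap.range (tt h.square L g) = cz (ph h.square g) :=
    Submodule.eq_of_le_of_finrank_le (h.range_tt hL hg) (by omega)
  constructor
  · intro z hz
    have h1 : z ∈ LinearMap.range (tt h.square L g) := by
      rw [e4]
      exact hz
    obtain ⟨⟨Y, hY, -⟩, rfl⟩ := h1
    exact ⟨Y, hY, rfl⟩
  · have e6 : LinearMap.ker (tt h.square L g) ≠ ⊥ := by
      intro h0
      rw [h0, finrank_bot] at e1
      omega
    obtain ⟨⟨Y, hY, hXY'⟩, hY0, hne⟩ := (Submodule.ne_bot_iff _).1 e6
    obtain ⟨c, hc⟩ := h.ker_ph (hL hY) hY0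
    have hc0 : c ≠ 0 := by
      rintro rfl
      apply hne
      apply Subtype.ext
      change Y = 0
      rw [hc, zero_smul]
    have e7 : (1 - pr J j : End k V) = c⁻¹ • Y := by
      rw [hc, smul_smul, inv_mul_cancel₀ hc0, one_smul]
    rw [e7]
    exact L.smul_mem _ hY

/-- **Theorem.** A Lie algebra of similitudes which is not commutative on the eigenspace, and which has
a subspace of dimension `p + 1` which commutes with an endomorphism without proper stable subspaces,
contains all similitudes. -/
theorem full {L : Submodule k (End k V)} (hLie : ∀ X ∈ L, ∀ Y ∈ L, X * Y - Y * X ∈ L)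
    (hL : L ≤ sims J ψ) {g : End k V} (hg : J * g = g * J)
    (hf : Irreducible (minpoly k (ph h.square g)))
    (hd : (minpoly k (ph h.square g)).natDegree = finrank k (WW J j))
    {X₀ Y₀ : End k V} (hX₀ : X₀ ∈ L) (hY₀ : Y₀ ∈ L)
    (hXY : ph h.square X₀ * ph h.square Y₀ ≠ ph h.square Y₀ * ph h.square X₀)
    (hrk : p + 1 ≤ finrank k (cn L g)) : sims J ψ ≤ L := by
  have := h.nontrivial_W
  set 𝔮 : Submodule k (End k (WW J j)) := L.map (ph h.square) with h𝔮
  have hqb : ∀ X ∈ 𝔮, ∀ Y ∈ 𝔮, X * Y - Y * X ∈ 𝔮 := by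
    rintro _ ⟨X, hX, rfl⟩ _ ⟨Y, hY, rfl⟩
    refine ⟨X * Y - Y * X, hLie X hX Y hY, ?_⟩
    rw [map_sub, ph_mul h.ne_zero h.square (J_comm (hL hX)) (J_comm (hL hY)),
      ph_mul h.ne_zero h.square (J_comm (hL hY)) (J_comm (hL hX))]
  obtain ⟨e6, e5⟩ := h.blocks hL hg hf hd hrk
  -- an element which does not commute with `g`
  have e7 : ∃ y ∈ 𝔮, ph h.square g * y ≠ y * ph h.square g := by
    by_contra hcon
    push Not at hcon
    apply hXY
    obtain ⟨a, ha⟩ := comm_range hf hd _ (hcon _ ⟨X₀, hX₀, rfl⟩)
    obtain ⟨b, hb⟩ := comm_range hf hd _ (hcon _ ⟨Y₀, hY₀, rfl⟩)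
    rw [← ha, ← hb]
    exact phi_comm _ a b
  obtain ⟨y, hy, hgy⟩ := e7
  intro X hX
  obtain ⟨Z, hZ, hZX⟩ := lie_all hf hd h.prime_W 𝔮 hqb e6 hy hgy (ph h.square X)
  obtain ⟨c, hc⟩ := h.ker_ph (X := X - Z) (Submodule.sub_mem _ hX (hL hZ)) (by
    rw [map_sub, hZX, sub_self])
  have e7 : X = Z + c • (1 - pr J j : End k V) := by
    rw [← hc]
    abel
  rw [e7]
  exact L.add_mem hZ (L.smul_mem _ e5)

end QuadraticType

end

end Pool.Agent.N144.PR
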