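import Pool.Agent.N144.PR.Twist
import Pool.Agent.N144.PR.Two
import Pool.Agent.H204R3.GP.TateG

/-!
# The invariants of the Lie algebra of the similitudes
-/

set_option autoImplicit false
set_option linter.unusedSectionVars false

namespace Pool.Agent.N144.PR

open Module Pool.Agent.N144.TD Pool.Agent.H204R3.CM Pool.Agent.H204R3.SP Pool.Agent.H204R3.GP

noncomputable section

variable {k V : Type} [Field k] [CharZero k] [AddCommGroup V] [Module k V] [FiniteDimensional k V]
  {p : ℕ} {J : End k V} {j : k} {ψ : V →ₗ[k] V →ₗ[k] k}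

/-- the involution of the index set -/
def iv (x : Fin p × Bool) : Fin p × Bool := (x.1, !x.2)

/-- the signs -/
def sg (k : Type) [Field k] (x : Fin p × Bool) : k := if x.2 then 1 else -1

/-- the eigenvalues -/
def ev (j : k) (x : Fin p × Bool) : k := if x.2 then j else -j

theorem iv_iv (x : Fin p × Bool) : iv (iv x) = x := by
  unfold iv
  simp

theorem sg_iv (x : Fin p × Bool) : sg k (iv x) = -sg k x := by
  unfold sg iv
  rcases x with ⟨i, b⟩
  cases b <;> simp

theorem sg_ne (x : Fin p × Bool) : sg k x ≠ 0 := by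
  unfold sg
  split_ifs
  · exact one_ne_zero
  · exact neg_ne_zero.2 one_ne_zero

/-- a basis adapted to the form and to `J` -/
theorem QuadraticType.exists_basis (h : QuadraticType p J j ψ) (halt : ∀ x y, ψ y x = -ψ x y) :
    ∃ e : Basis (Fin p × Bool) k V, (∀ x, J (e x) = ev j x • e x) ∧
      ∀ x y, ψ (e x) (e y) = JJ iv (sg k) x y := by
  let b : Basis (Fin p) k (WW J j) := finBasisOfFinrankEq k _ h.finrank_W
  obtain ⟨T, hT, -⟩ := exists_sharp (ψ := ψ.flip) h.nondegenerate.2
  have hT1 : ∀ (ξ : Dual k V) (y : V), ψ y (T ξ) = ξ y := hT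
  let f : Fin p → Dual k V := fun i => (b.coord i) ∘ₗ prW h.square
  have hf1 : ∀ i, ∀ y ∈ WW J (-j), f i y = 0 := by
    intro i y hy
    have h1 : prW h.square y = 0 := Subtype.ext (pr_zero h.ne_zero hy)
    change b.coord i (prW h.square y) = 0
    rw [h1, map_zero]
  have hf2 : ∀ i l, f i (b l : V) = if l = i then 1 else 0 := by
    intro i l
    have h1 : prW h.square (b l : V) = b l := Subtype.ext (pr_self h.ne_zero (b l).2)
    change b.coord i (prW h.square (b l : V)) = _
    rw [h1, Basis.coord_apply, b.repr_self, Finsupp.single_apply]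
  have hTm : ∀ i, T (f i) ∈ WW J (-j) := by
    intro i
    obtain ⟨a, ha, c, hc, hac⟩ := h.split (T (f i))
    have h1 : a = 0 := by
      apply h.nondegenerate.2
      intro y
      obtain ⟨y₁, hy₁, y₂, hy₂, rfl⟩ := h.split y
      have h2 : ψ y₂ (T (f i)) = 0 := by rw [hT1, hf1 i y₂ hy₂]
      rw [hac, map_add, h.isotropic (neg_ne_zero.2 h.ne_zero) hy₂ hc, add_zero] at h2
      rw [map_add, LinearMap.add_apply, h.isotropic h.ne_zero hy₁ ha, h2, add_zero]
    rw [hac, h1, zero_add]
    exact hc
  let v : Fin p × Bool → V := fun x => if x.2 then (b x.1 : V) else T (f x.1)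
  have hv : ∀ x, J (v x) = ev j x • v x := by
    rintro ⟨i, c⟩
    cases c
    · exact End.mem_eigenspace_iff.1 (hTm i)
    · exact End.mem_eigenspace_iff.1 (b i).2
  have hvv : ∀ x y, ψ (v x) (v y) = JJ iv (sg k) x y := by
    rintro ⟨i, c⟩ ⟨l, d⟩
    have h0 : JJ iv (sg k) (i, c) (l, d) = if l = i ∧ d = !c then sg k (i, c) else 0 := by
      unfold JJ iv
      simp only [Prod.mk.injEq]
    rw [h0]
    cases c <;> cases d
    · rw [if_neg (by simp)]
      exact h.isotropic (neg_ne_zero.2 h.ne_zero) (hTm i) (hTm l)
    · rw [halt]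
      change -ψ (b l : V) (T (f i)) = _
      rw [hT1, hf2]
      by_cases hil : l = i
      · rw [if_pos hil, if_pos ⟨hil, rfl⟩]
        rfl
      · rw [if_neg hil, if_neg fun h => hil h.1, neg_zero]
    · change ψ (b i : V) (T (f l)) = _
      rw [hT1, hf2]
      by_cases hil : l = i
      · rw [if_pos hil.symm, if_pos ⟨hil, rfl⟩]
        rfl
      · rw [if_neg fun h => hil h.symm, if_neg fun h => hil h.1]
    · rw [if_neg (by simp)]
      exact h.isotropic h.ne_zero (b i).2 (b l).2
  have hli : LinearIndependent k v := by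
    rw [Fintype.linearIndependent_iff]
    intro c hc x
    have h1 : ψ (∑ y, c y • v y) (v (iv x)) = 0 := by rw [hc, map_zero, LinearMap.zero_apply]
    rw [map_sum, LinearMap.sum_apply, Finset.sum_eq_single x] at h1
    · rw [map_smul, LinearMap.smul_apply, hvv, smul_eq_mul] at h1
      unfold JJ at h1
      rw [if_pos rfl] at h1
      exact (mul_eq_zero.1 h1).resolve_right (sg_ne x)
    · intro y _ hy
      rw [map_smul, LinearMap.smul_apply, hvv, smul_eq_mul]
      unfold JJ
      rw [if_neg, mul_zero]
      intro h2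
      apply hy
      rw [← iv_iv x, h2, iv_iv]
    · intro h2
      exact absurd (Finset.mem_univ _) h2
  have := h.nontrivial_W
  have hne : Nonempty (Fin p × Bool) := ⟨(⟨0, h.prime.pos⟩, true)⟩
  refine ⟨basisOfLinearIndependentOfCardEqFinrank hli ?_, ?_, ?_⟩
  · rw [Fintype.card_prod, Fintype.card_fin, Fintype.card_bool, h.dim, mul_comm]
  · intro x
    rw [coe_basisOfLinearIndependentOfCardEqFinrank]
    exact hv x
  · intro x y
    rw [coe_basisOfLinearIndependentOfCardEqFinrank]
    exact hvv x y

/-- **The invariants.** A multilinear form which is killed by all endomorphisms which commute with `J`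
and are skew for `ψ` is a linear combination of products of the forms `ψ (x, y)` and `ψ (J x, y)`. -/
theorem inv_mem (h : QuadraticType p J j ψ) (halt : ∀ x y, ψ y x = -ψ x y) {m : ℕ}
    (φ : MultilinearMap k (fun _ : Fin m × Fin 2 => V) k)
    (hkill : ∀ X : End k V, X * J = J * X → (∀ x y, ψ (X x) y + ψ x (X y) = 0) →
      ∀ v, ∑ l, φ (Function.update v l (X (v l))) = 0) :
    φ ∈ Submodule.span k {F | ∃ (σ : Equiv.Perm (Fin m × Fin 2)) (B : Fin m → (V →ₗ[k] V →ₗ[k] k)),
      (∀ l, Comb J ψ (B l)) ∧ F = mmG σ B} := by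
  classical
  obtain ⟨e, heJ, hω⟩ := h.exists_basis halt
  let cls : Fin p × Bool → Bool := Prod.snd
  have hcls : ∀ x y, cls x = cls y → cls (iv x) = cls (iv y) := by
    intro x y hxy
    change (!x.2) = !y.2
    rw [show x.2 = y.2 from hxy]
  -- the forms of the classes
  let BC : Bool → (V →ₗ[k] V →ₗ[k] k) := fun c =>
    if c then ψ.comp (pr J j) else ψ.comp (1 - pr J j)
  have hprT : ∀ i, pr J j (e (i, true)) = e (i, true) := fun i =>
    pr_self h.ne_zero (End.mem_eigenspace_iff.2 (heJ (i, true)))
  have hprF : ∀ i, pr J j (e (i, false)) = 0 := fun i =>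
    pr_zero h.ne_zero (End.mem_eigenspace_iff.2 (heJ (i, false)))
  have hBC : ∀ c, Comb J ψ (BC c) := by
    have h2 : (2 * j) ≠ 0 := mul_ne_zero two_ne_zero h.ne_zero
    have h3 : ∀ x y, ψ (pr J j x) y = 2⁻¹ * ψ x y + (2 * j)⁻¹ * ψ (J x) y := by
      intro x y
      rw [pr_apply, map_smul, LinearMap.smul_apply, map_add, LinearMap.add_apply, map_smul,
        LinearMap.smul_apply, smul_eq_mul, smul_eq_mul]
      have hj := h.ne_zero
      field_simp
      ring
    intro c
    cases c
    · refine ⟨2⁻¹, -(2 * j)⁻¹, fun x y => ?_⟩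
      change ψ (x - pr J j x) y = _
      rw [map_sub, LinearMap.sub_apply, h3]
      field_simp
      ring
    · exact ⟨2⁻¹, (2 * j)⁻¹, h3⟩
  have hBC' : ∀ c x y, BC c (e x) (e y) = if cls x = c then JJ iv (sg k) x y else 0 := by
    rintro c ⟨i, d⟩ y
    cases c <;> cases d
    · change ψ (e (i, false) - pr J j (e (i, false))) (e y) = _
      rw [hprF, sub_zero, hω, if_pos rfl]
    · change ψ (e (i, true) - pr J j (e (i, true))) (e y) = _
      rw [hprT, sub_self, map_zero, LinearMap.zero_apply, if_neg (by simp [cls])]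
    · change ψ (pr J j (e (i, false))) (e y) = _
      rw [hprF, map_zero, LinearMap.zero_apply, if_neg (by simp [cls])]
    · change ψ (pr J j (e (i, true))) (e y) = _
      rw [hprT, hω, if_pos rfl]
  -- coefficients
  let coef : MultilinearMap k (fun _ : Fin m × Fin 2 => V) k →ₗ[k]
      ((Fin m × Fin 2 → Fin p × Bool) → k) :=
    { toFun := fun φ I => φ (fun l => e (I l))
      map_add' := fun _ _ => rfl
      map_smul' := fun _ _ => rfl }
  have hinj : Function.Injective coef := fun φ φ' h =>
    Basis.ext_multilinear (fun _ => e) fun I => congrFun h I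
  have hSS : ∀ b c, cls (iv b) = cls c → SS ψ (e b) (e c) * J = J * SS ψ (e b) (e c) := by
    intro b c hbc
    have hev : ev j c = -ev j b := by
      obtain ⟨i, b'⟩ := b
      obtain ⟨l, c'⟩ := c
      change (!b') = c' at hbc
      subst hbc
      unfold ev
      cases b' <;> simp
    refine LinearMap.ext fun v => ?_
    rw [Module.End.mul_apply, Module.End.mul_apply, SS_apply, SS_apply, map_add, map_smul,
      map_smul, heJ, heJ]
    have h1 : ψ (e b) (J v) = -(ev j b * ψ (e b) v) := by
      have h2 := h.adjoint (e b) v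
      rw [heJ, map_smul, LinearMap.smul_apply, smul_eq_mul] at h2
      rw [h2, neg_neg]
    have h2 : ψ (e c) (J v) = -(ev j c * ψ (e c) v) := by
      have h2 := h.adjoint (e c) v
      rw [heJ, map_smul, LinearMap.smul_apply, smul_eq_mul] at h2
      rw [h2, neg_neg]
    rw [h1, h2, hev, smul_smul, smul_smul]
    congr 2 <;> ring
  have hSS' : ∀ b c, ∀ x y, ψ (SS ψ b c x) y + ψ x (SS ψ b c y) = 0 := by
    intro b c x y
    rw [SS_apply, SS_apply, map_add, map_add, LinearMap.add_apply, map_smul, map_smul, map_smul,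
      map_smul, LinearMap.smul_apply, LinearMap.smul_apply, smul_eq_mul, smul_eq_mul, smul_eq_mul,
      smul_eq_mul, halt c x, halt b x]
    ring
  have hrel : ∀ b c, cls (iv b) = cls c → ∀ I : Fin m × Fin 2 → Fin p × Bool,
      ∑ l, (JJ iv (sg k) b (I l) * coef φ (Function.update I l c) +
        JJ iv (sg k) c (I l) * coef φ (Function.update I l b)) = 0 := by
    intro b c hbc I
    have h3 := hkill _ (hSS b c hbc) (hSS' (e b) (e c)) (fun l => e (I l))
    rw [← h3]
    refine Finset.sum_congr rfl fun l _ => ?_
    rw [SS_apply, hω, hω, MultilinearMap.map_update_add, MultilinearMap.map_update_smul,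
      MultilinearMap.map_update_smul, smul_eq_mul, smul_eq_mul]
    have h4 : ∀ z : Fin p × Bool, coef φ (Function.update I l z) =
        φ (Function.update (fun l => e (I l)) l (e z)) := by
      intro z
      change φ (fun l' => e (Function.update I l z l')) = _
      congr 1
      funext l'
      by_cases hl : l' = l
      · subst hl
        rw [Function.update_self, Function.update_self]
      · rw [Function.update_of_ne hl, Function.update_of_ne hl]
    rw [h4, h4]
  let F : (Fin m × Fin 2 → Bool) → ((Fin m × Fin 2 → Fin p × Bool) → k) := fun t I =>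
    if (fun l => cls (I l)) = t then coef φ I else 0
  have hF : coef φ = ∑ t, F t := by
    funext I
    rw [Finset.sum_apply]
    simp only [F]
    rw [Finset.sum_ite_eq, if_pos (Finset.mem_univ _)]
  have hFt : ∀ t, F t ∈ InvG cls iv (sg k) (Fin m × Fin 2) t := by
    intro t
    refine ⟨fun b c hbc I => ?_, fun I hI l => ?_⟩
    · have htype : ∀ (l : Fin m × Fin 2) (z : Fin p × Bool), cls (I l) = cls z →
          (fun l' => cls (Function.update I l z l')) = fun l' => cls (I l') := by
        intro l z hz
        funext l'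
        by_cases hl : l' = l
        · subst hl
          rw [Function.update_self, hz]
        · rw [Function.update_of_ne hl]
      have h1 : ∀ l, JJ iv (sg k) b (I l) * F t (Function.update I l c) +
          JJ iv (sg k) c (I l) * F t (Function.update I l b) =
          if (fun l => cls (I l)) = t then JJ iv (sg k) b (I l) * coef φ (Function.update I l c) +
            JJ iv (sg k) c (I l) * coef φ (Function.update I l b) else 0 := by
        intro l
        have e1 : JJ iv (sg k) b (I l) * F t (Function.update I l c) =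
            if (fun l => cls (I l)) = t then JJ iv (sg k) b (I l) *
              coef φ (Function.update I l c) else 0 := by
          by_cases h : I l = iv b
          · have h2 := htype l c (by rw [h, hbc])
            simp only [F]
            rw [h2]
            split_ifs
            · rfl
            · rw [mul_zero]
          · have h2 : JJ iv (sg k) b (I l) = 0 := by
              unfold JJ
              rw [if_neg h]
            rw [h2, zero_mul, zero_mul]
            split_ifs <;> rfl
        have e2 : JJ iv (sg k) c (I l) * F t (Function.update I l b) =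
            if (fun l => cls (I l)) = t then JJ iv (sg k) c (I l) *
              coef φ (Function.update I l b) else 0 := by
          by_cases h : I l = iv c
          · have h2 := htype l b (by rw [h, ← hcls _ _ hbc, iv_iv])
            simp only [F]
            rw [h2]
            split_ifs
            · rfl
            · rw [mul_zero]
          · have h2 : JJ iv (sg k) c (I l) = 0 := by
              unfold JJ
              rw [if_neg h]
            rw [h2, zero_mul, zero_mul]
            split_ifs <;> rfl
        rw [e1, e2]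
        split_ifs
        · rfl
        · rw [add_zero]
      rw [Finset.sum_congr rfl (fun l _ => h1 l)]
      by_cases hI : (fun l => cls (I l)) = t
      · simp only [if_pos hI]
        exact hrel b c hbc I
      · simp only [if_neg hI]
        exact Finset.sum_const_zero
    · by_contra h
      apply hI
      simp only [F]
      rw [if_neg]
      rintro rfl
      exact h rfl
  have h1 : coef φ ∈ MatG cls iv (sg k) (Fin m × Fin 2) m := by
    rw [hF]
    exact Submodule.sum_mem _ fun t _ => fftG iv_iv sg_iv sg_ne hcls m (Fin m × Fin 2)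
      (by simp [mul_comm]) t (hFt t)
  have h3 : MatG cls iv (sg k) (Fin m × Fin 2) m ≤ (Submodule.span k {F | ∃ (σ : Equiv.Perm
      (Fin m × Fin 2)) (B : Fin m → (V →ₗ[k] V →ₗ[k] k)), (∀ l, Comb J ψ (B l)) ∧
        F = mmG σ B}).map coef := by
    unfold MatG
    rw [Submodule.span_le]
    rintro _ ⟨σ, c, rfl⟩
    refine ⟨mmG σ (fun l => BC (c l)), Submodule.subset_span ⟨σ, _, fun l => hBC _, rfl⟩, ?_⟩
    funext I
    change mmG σ (fun l => BC (c l)) (fun l => e (I l)) = _
    rw [mmG_apply]
    exact Finset.prod_congr rfl fun s _ => hBC' _ _ _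
  obtain ⟨φ', hφ', hφφ⟩ := h3 h1
  rw [← hinj hφφ]
  exact hφ'

omit [FiniteDimensional k V] in
theorem QuadraticType.J_surj (h : QuadraticType p J j ψ) (x : V) : ∃ y, x = J y := by
  refine ⟨(j ^ 2)⁻¹ • J x, ?_⟩
  rw [map_smul, J_sq h.square, smul_smul, inv_mul_cancel₀ (pow_ne_zero 2 h.ne_zero), one_smul]

omit [FiniteDimensional k V] in
/-- If the form is symmetric, then the form `ψ (J x, y)` is skew-symmetric. -/
theorem QuadraticType.turn (h : QuadraticType p J j ψ) (hs : ∀ x y, ψ y x = ψ x y) :
    (∀ x y, (ψ.comp J) y x = -(ψ.comp J) x y) ∧ QuadraticType p J j (ψ.comp J) := by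
  have halt : ∀ x y, (ψ.comp J) y x = -(ψ.comp J) x y := by
    intro x y
    change ψ (J y) x = -ψ (J x) y
    rw [h.adjoint y x, hs]
  refine ⟨halt, h.prime, h.dim, h.ne_zero, h.square, ⟨fun x hx => ?_, fun y hy => ?_⟩,
    Or.inr halt, fun x y => ?_⟩
  · have h1 : J x = 0 := h.nondegenerate.1 _ hx
    have h2 := J_sq h.square x
    rw [h1, map_zero] at h2
    exact (smul_eq_zero.1 h2.symm).resolve_left (pow_ne_zero 2 h.ne_zero)
  · apply h.nondegenerate.2
    intro x
    obtain ⟨z, rfl⟩ := h.J_surj x
    exact hy z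
  · exact h.adjoint (J x) y

/-- **The invariants.** -/
theorem inv_mem' (h : QuadraticType p J j ψ) {m : ℕ}
    (φ : MultilinearMap k (fun _ : Fin m × Fin 2 => V) k)
    (hkill : ∀ X : End k V, X * J = J * X → (∀ x y, ψ (X x) y + ψ x (X y) = 0) →
      ∀ v, ∑ l, φ (Function.update v l (X (v l))) = 0) :
    φ ∈ Submodule.span k {F | ∃ (σ : Equiv.Perm (Fin m × Fin 2)) (B : Fin m → (V →ₗ[k] V →ₗ[k] k)),
      (∀ l, Comb J ψ (B l)) ∧ ∀ v, F v = ∏ l, B l (v (σ (l, 0))) (v (σ (l, 1)))} := by
  rcases h.symm with hs | hs
  · obtain ⟨halt, h'⟩ := h.turn hs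
    have h1 := inv_mem h' halt φ (fun X hXJ hX => hkill X hXJ fun x y => by
      obtain ⟨z, rfl⟩ := h.J_surj x
      have h1 : X (J z) = J (X z) := LinearMap.congr_fun hXJ z
      rw [h1]
      exact hX z y)
    refine Submodule.span_mono ?_ h1
    rintro _ ⟨σ, B, hB, rfl⟩
    refine ⟨σ, B, fun l => ?_, fun v => mmG_apply _ _ _⟩
    obtain ⟨a, b, hab⟩ := hB l
    refine ⟨b * j ^ 2, a, fun x y => ?_⟩
    rw [hab]
    change a * ψ (J x) y + b * ψ (J (J x)) y = _
    rw [J_sq h.square, map_smul, LinearMap.smul_apply, smul_eq_mul]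
    ring
  · have h1 := inv_mem h hs φ hkill
    refine Submodule.span_mono ?_ h1
    rintro _ ⟨σ, B, hB, rfl⟩
    exact ⟨σ, B, hB, fun v => mmG_apply _ _ _⟩

end

end Pool.Agent.N144.PR
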