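import Pool.Agent.N144.PR.Dens

/-!
# Endomorphisms without stable subspaces, and their powers
-/

set_option autoImplicit false
set_option linter.unusedSectionVars false

namespace Pool.Agent.N144.PR

open Polynomial Module

noncomputable section

variable {k W : Type*} [Field k] [CharZero k] [AddCommGroup W] [Module k W] [FiniteDimensional k W]

theorem comm_aeval {x z : End k W} (hz : x * z = z * x) (Q : k[X]) : Commute z (aeval x Q) :=
  Polynomial.induction_on' Q (fun P Q hP hQ => by rw [map_add]; exact hP.add_right hQ)
    (fun m c => by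
      rw [aeval_monomial]
      exact (show Commute z (algebraMap k _ c) from (Algebra.commutes c z).symm).mul_right
        ((show Commute z x from hz.symm).pow_right m))

theorem unit_of {f a b : k[X]} (hf : f ≠ 0) (hab : f = a * b) (hb : f ∣ b) : IsUnit a := by
  obtain ⟨c, hc⟩ := hb
  have hb0 : b ≠ 0 := by
    rintro rfl
    rw [mul_zero] at hab
    exact hf hab
  have h1 : b * (a * c) = b * 1 := by
    rw [mul_one]
    nth_rewrite 2 [hc]
    rw [hab]
    ring
  exact IsUnit.of_mul_eq_one c (mul_left_cancel₀ hb0 h1)

/-- an endomorphism without proper stable subspaces has an irreducible minimal polynomial -/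
theorem irr_of_simple [Nontrivial W] {x : End k W}
    (h : ∀ U : Submodule k W, (∀ u ∈ U, x u ∈ U) → U = ⊥ ∨ U = ⊤) :
    Irreducible (minpoly k x) ∧ (minpoly k x).natDegree = finrank k W := by
  have hint : IsIntegral k x := Algebra.IsIntegral.isIntegral x
  have h0 : minpoly k x ≠ 0 := minpoly.ne_zero hint
  have hk : ∀ a : k[X], LinearMap.ker (aeval x a) = ⊥ ∨ LinearMap.ker (aeval x a) = ⊤ := by
    intro a
    apply h
    intro u hu
    rw [LinearMap.mem_ker] at hu ⊢
    rw [← Module.End.mul_apply, ← (comm_aeval (rfl : x * x = x * x) a).eq, Module.End.mul_apply, hu,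
      map_zero]
  have hf : Irreducible (minpoly k x) := by
    refine ⟨minpoly.not_isUnit k x, fun a b hab => ?_⟩
    rcases hk a with h1 | h1
    · left
      refine unit_of h0 hab (minpoly.dvd k x ?_)
      refine LinearMap.ext fun w => ?_
      have h3 : aeval x a (aeval x b w) = 0 := by
        rw [← Module.End.mul_apply, ← map_mul, ← hab, minpoly.aeval, LinearMap.zero_apply]
      have h4 : aeval x b w ∈ LinearMap.ker (aeval x a) := h3
      rw [h1, Submodule.mem_bot] at h4
      rw [h4, LinearMap.zero_apply]
    · right
      refine unit_of h0 (hab.trans (mul_comm a b)) (minpoly.dvd k x ?_)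
      exact LinearMap.ker_eq_top.1 h1
  refine ⟨hf, ?_⟩
  have : Fact (Irreducible (minpoly k x)) := ⟨hf⟩
  have : FiniteDimensional k (AdjoinRoot (minpoly k x)) := (AdjoinRoot.powerBasis hf.ne_zero).finite
  obtain ⟨v, hv⟩ := exists_ne (0 : W)
  let G : AdjoinRoot (minpoly k x) →ₗ[k] W :=
    { toFun := fun a => phi (E := k) x a v
      map_add' := fun a b => by rw [map_add, LinearMap.add_apply]
      map_smul' := fun c a => by rw [map_smul, LinearMap.smul_apply, RingHom.id_apply] }
  have hG : Function.Injective G := by
    rw [injective_iff_map_eq_zero]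
    intro a ha
    by_contra hne
    apply hv
    have h1 : phi (E := k) x (a⁻¹ * a) v = 0 := by
      rw [map_mul, Module.End.mul_apply]
      change phi (E := k) x a⁻¹ (G a) = 0
      rw [ha, map_zero]
    rwa [inv_mul_cancel₀ hne, map_one, Module.End.one_apply] at h1
  have hS : LinearMap.range G = ⊤ := by
    rcases h (LinearMap.range G) (by
      rintro _ ⟨a, rfl⟩
      refine ⟨AdjoinRoot.root _ * a, ?_⟩
      change phi (E := k) x (AdjoinRoot.root _ * a) v = x (phi (E := k) x a v)
      rw [map_mul, phi_root, Module.End.mul_apply]) with h1 | h1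
    · exfalso
      apply hv
      have h2 : G 1 ∈ LinearMap.range G := ⟨1, rfl⟩
      rw [h1, Submodule.mem_bot] at h2
      change phi (E := k) x 1 v = 0 at h2
      rwa [map_one, Module.End.one_apply] at h2
    · exact h1
  have h1 := (LinearEquiv.ofBijective G ⟨hG, LinearMap.range_eq_top.1 hS⟩).finrank_eq
  rw [← h1, (AdjoinRoot.powerBasis hf.ne_zero).finrank, AdjoinRoot.powerBasis_dim]

/-- an endomorphism which commutes with `x` and is not a scalar has also an irreducible minimal
polynomial -/
theorem irr_comm [Nontrivial W] {x : End k W} (hf : Irreducible (minpoly k x))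
    (hd : (minpoly k x).natDegree = finrank k W) (hp : (finrank k W).Prime) {y : End k W}
    (hy : x * y = y * x) (hns : ∀ c : k, y ≠ c • (1 : End k W)) :
    Irreducible (minpoly k y) ∧ (minpoly k y).natDegree = finrank k W := by
  have : Fact (Irreducible (minpoly k x)) := ⟨hf⟩
  have : FiniteDimensional k (AdjoinRoot (minpoly k x)) := (AdjoinRoot.powerBasis hf.ne_zero).finite
  obtain ⟨a, ha⟩ := comm_range hf hd y hy
  have ha' : phi (E := k) x a = y := ha
  have hinj : Function.Injective (phi (E := k) x) := (phi (E := k) x).toRingHom.injective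
  have hia : IsIntegral k a := Algebra.IsIntegral.isIntegral a
  have h1 : minpoly k y = minpoly k a := by
    rw [← ha']
    exact minpoly.algHom_eq _ hinj a
  rw [h1]
  refine ⟨minpoly.irreducible hia, ?_⟩
  have h2 : (minpoly k a).natDegree ∣ finrank k W := by
    have h3 : finrank k (AdjoinRoot (minpoly k x)) = finrank k W := by
      rw [(AdjoinRoot.powerBasis hf.ne_zero).finrank, AdjoinRoot.powerBasis_dim, hd]
    rw [← h3]
    exact minpoly.degree_dvd hia
  rcases (Nat.dvd_prime hp).1 h2 with h3 | h3
  · exfalso
    have h4 : (minpoly k a).degree = 1 := by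
      rw [degree_eq_natDegree (minpoly.ne_zero hia), h3]
      rfl
    obtain ⟨c, hc⟩ := minpoly.mem_range_of_degree_eq_one k a h4
    apply hns c
    rw [← ha', ← hc, AlgHom.commutes, Algebra.algebraMap_eq_smul_one]
  · exact h3

/-- such endomorphisms have no proper stable subspaces -/
theorem simple_of_irr {x : End k W} (hf : Irreducible (minpoly k x))
    (hd : (minpoly k x).natDegree = finrank k W) (U : Submodule k W) (hU : ∀ u ∈ U, x u ∈ U) :
    U = ⊥ ∨ U = ⊤ := by
  by_cases h0 : U = ⊥
  · exact Or.inl h0
  · right
    obtain ⟨v, hvU, hv⟩ := (Submodule.ne_bot_iff _).1 h0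
    rw [eq_top_iff]
    intro w _
    obtain ⟨P, rfl⟩ := cyc hf hd hv w
    have h1 : ∀ P : k[X], ∀ u ∈ U, aeval x P u ∈ U := by
      intro P
      induction P using Polynomial.induction_on' with
      | add P Q hP hQ =>
        intro u hu
        rw [map_add, LinearMap.add_apply]
        exact U.add_mem (hP u hu) (hQ u hu)
      | monomial m c =>
        intro u hu
        rw [aeval_monomial, Module.End.mul_apply, Module.algebraMap_end_apply]
        refine U.smul_mem c ?_
        induction m generalizing u with
        | zero => exact hu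
        | succ m ih =>
          rw [pow_succ, Module.End.mul_apply]
          exact ih (x u) (hU u hu)
    exact h1 P v hvU

/-- the minimal polynomial is the characteristic polynomial -/
theorem charpoly_eq {x : End k W} (hd : (minpoly k x).natDegree = finrank k W) :
    x.charpoly = minpoly k x := by
  refine Polynomial.eq_of_monic_of_dvd_of_natDegree_le ?_ x.charpoly_monic
    (LinearMap.minpoly_dvd_charpoly x) ?_
  · exact minpoly.monic (Algebra.IsIntegral.isIntegral x)
  · rw [LinearMap.charpoly_natDegree, hd]

end

end Pool.Agent.N144.PR
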