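import Pool.Agent.Y114.RM.Defs

/-!
# Twisted Tate forms
-/

set_option autoImplicit false
set_option linter.unusedSectionVars false

namespace Pool.Agent.N144.PR

open Module Pool.Agent.Y114.RM

noncomputable section

variable {k V : Type} [Field k] [AddCommGroup V] [Module k V] [FiniteDimensional k V]

/-- the isomorphism given by a nondegenerate form -/
theorem exists_sharp {ψ : V →ₗ[k] V →ₗ[k] k} (hnd : ∀ x, (∀ y, ψ x y = 0) → x = 0) :
    ∃ T : Dual k V →ₗ[k] V, (∀ ξ y, ψ (T ξ) y = ξ y) ∧ ∀ x, T (ψ x) = x := by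
  have hinj : Function.Injective ψ := by
    rw [injective_iff_map_eq_zero]
    intro x hx
    exact hnd x fun y => by rw [hx, LinearMap.zero_apply]
  have hsurj : Function.Surjective ψ := by
    rw [← LinearMap.injective_iff_surjective_of_finrank_eq_finrank]
    · exact hinj
    · exact (Subspace.dual_finrank_eq).symm
  let e : V ≃ₗ[k] Dual k V := LinearEquiv.ofBijective ψ ⟨hinj, hsurj⟩
  refine ⟨e.symm.toLinearMap, fun ξ y => ?_, fun x => ?_⟩
  · exact congrArg (fun f : Dual k V => f y) (e.apply_symm_apply ξ)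
  · exact e.symm_apply_apply x

/-- the maps which are applied to the arguments -/
def arg {m : ℕ} (T : Dual k V →ₗ[k] V) (l : Fin m × Fin 2) : V × Dual k V →ₗ[k] V :=
  if l.2 = 0 then LinearMap.fst k V (Dual k V) else T ∘ₗ LinearMap.snd k V (Dual k V)

theorem killed_of_twist {Γ : Type} [Group Γ] (ρ : Representation k Γ V) {ψ : V →ₗ[k] V →ₗ[k] k}
    [Nontrivial V] (hnd : ∀ x, (∀ y, ψ x y = 0) → x = 0) {X : End k V}
    (hX : ∀ x y, ψ (X x) y + ψ x (X y) = 0)
    (hkill : ∀ (m : ℕ) (φ : Tensor k V m), TateTensor ρ φ → KillsTensor X φ)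
    {Δ : Subgroup Γ} (hΔ : Δ.FiniteIndex) {χ : Γ → k}
    (hχ : ∀ s ∈ Δ, ∀ x y, ψ (ρ s x) (ρ s y) = χ s * ψ x y) {m : ℕ}
    (φ : MultilinearMap k (fun _ : Fin m × Fin 2 => V) k)
    (hφ : ∀ s ∈ Δ, ∀ v, φ (fun l => ρ s (v l)) = χ s ^ m * φ v) (u : Fin m × Fin 2 → V) :
    ∑ l, φ (Function.update u l (X (u l))) = 0 := by
  classical
  obtain ⟨T, hT, hT'⟩ := exists_sharp hnd
  have hinj : ∀ x y : V, (∀ z, ψ x z = ψ y z) → x = y := by
    intro x y h
    rw [← sub_eq_zero]
    apply hnd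
    intro z
    rw [map_sub, LinearMap.sub_apply, h, sub_self]
  have hinv : ∀ s x, ρ s (ρ s⁻¹ x) = x := by
    intro s x
    rw [← Module.End.mul_apply, ← map_mul, mul_inv_cancel, map_one, Module.End.one_apply]
  have hχ0 : ∀ s ∈ Δ, χ s ≠ 0 := by
    intro s hs h0
    obtain ⟨x, hx⟩ := exists_ne (0 : V)
    apply hx
    apply hnd
    intro y
    have h1 := hχ s hs (ρ s⁻¹ x) (ρ s⁻¹ y)
    rwa [hinv, hinv, h0, zero_mul] at h1
  -- the action on the dual space
  have hTs : ∀ s ∈ Δ, ∀ ξ : Dual k V, T ((ρ s⁻¹).dualMap ξ) = (χ s)⁻¹ • ρ s (T ξ) := by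
    intro s hs ξ
    apply hinj
    intro z
    rw [hT, map_smul, LinearMap.smul_apply, smul_eq_mul]
    have h1 := hχ s hs (T ξ) (ρ s⁻¹ z)
    rw [hinv, hT] at h1
    rw [h1, ← mul_assoc, inv_mul_cancel₀ (hχ0 s hs), one_mul]
    rfl
  have hTX : ∀ ξ : Dual k V, T (-(X.dualMap ξ)) = X (T ξ) := by
    intro ξ
    apply hinj
    intro z
    rw [hT]
    have h1 := hX (T ξ) z
    rw [hT] at h1
    change -(ξ (X z)) = _
    linear_combination -h1
  let e : Fin m × Fin 2 ≃ Fin (m * 2) := finProdFinEquiv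
  let Φ : Tensor k V (m * 2) := (φ.compLinearMap (arg T)).domDomCongr e
  have hΦ : ∀ v, Φ v = φ (fun l => arg T l (v (e l))) := fun v => rfl
  have htate : TateTensor ρ Φ := by
    refine ⟨Δ, hΔ, fun s hs v => ?_⟩
    rw [hΦ, hΦ]
    let c : Fin m × Fin 2 → k := fun l => if l.2 = 0 then 1 else (χ s)⁻¹
    have h1 : (fun l => arg T l (grp (ρ s) (ρ s⁻¹) (v (e l)))) =
        fun l : Fin m × Fin 2 => c l • ρ s (arg T l (v (e l))) := by
      funext l
      by_cases hl : l.2 = 0
      · simp only [arg, c, if_pos hl, one_smul]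
        rfl
      · simp only [arg, c, if_neg hl]
        exact hTs s hs _
    rw [h1, MultilinearMap.map_smul_univ, hφ s hs]
    have h2 : ∏ l, c l = ((χ s)⁻¹) ^ m := by
      rw [Fintype.prod_prod_type]
      simp only [c, Fin.prod_univ_two]
      simp
    rw [h2, smul_eq_mul, ← mul_assoc, ← mul_pow, inv_mul_cancel₀ (hχ0 s hs), one_pow, one_mul]
  have h1 := hkill _ Φ htate
  let v : Fin (m * 2) → V × Dual k V := fun i =>
    if (e.symm i).2 = 0 then (u (e.symm i), 0) else (0, ψ (u (e.symm i)))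
  have hv : ∀ l, arg T l (v (e l)) = u l := by
    intro l
    by_cases hl : l.2 = 0
    · simp only [arg, v, Equiv.symm_apply_apply, if_pos hl]
      rfl
    · simp only [arg, v, Equiv.symm_apply_apply, if_neg hl]
      exact hT' _
  have hv' : ∀ l, arg T l (lie X (v (e l))) = X (u l) := by
    intro l
    by_cases hl : l.2 = 0
    · simp only [arg, v, Equiv.symm_apply_apply, if_pos hl]
      rfl
    · simp only [arg, v, Equiv.symm_apply_apply, if_neg hl]
      change T (-(X.dualMap (ψ (u l)))) = _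
      rw [hTX, hT']
  have h2 := h1 v
  rw [← e.sum_comp] at h2
  rw [← h2]
  refine Finset.sum_congr rfl fun l _ => ?_
  rw [hΦ]
  congr 1
  funext l'
  by_cases hl : l' = l
  · subst hl
    rw [Function.update_self, Function.update_self, hv']
  · rw [Function.update_of_ne hl, Function.update_of_ne (fun h => hl (e.injective h)), hv]

end

end Pool.Agent.N144.PR
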